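import Pool.Agent.H825R2.CD.Defs

namespace H825CD
open Finset

theorem CR_eq {ι : Type} [Fintype ι] [DecidableEq ι] (Q : ℕ) (A B : Finset (ι → Fin (Q + 1)))
    (j : ι) : ((A ×ˢ B).filter (fun p => p.1 j = p.2 j)).card =
      ∑ x : Fin (Q + 1), cnt A j {x} * cnt B j {x} := by
  rw [Finset.card_eq_sum_card_fiberwise (f := fun p => p.1 j) (t := Finset.univ)
    (fun _ _ => Finset.mem_coe.2 (Finset.mem_univ _))]
  refine Finset.sum_congr rfl fun x _ => ?_
  unfold cnt
  rw [← Finset.card_product]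
  congr 1
  ext ⟨a, b⟩
  simp only [Finset.mem_filter, Finset.mem_product, Finset.mem_singleton]
  constructor
  · rintro ⟨⟨⟨ha, hb⟩, h1⟩, h2⟩
    exact ⟨⟨ha, h2⟩, hb, by rw [← h1]; exact h2⟩
  · rintro ⟨⟨ha, h1⟩, hb, h2⟩
    exact ⟨⟨⟨ha, hb⟩, by rw [h1, h2]⟩, h1⟩

theorem CR_ham {ι : Type} [Fintype ι] [DecidableEq ι] (Q : ℕ) (S : Finset ι)
    (A B : Finset (ι → Fin (Q + 1))) (hA : Sup S A) (hB : Sup S B) (a b : ι → Fin (Q + 1))
    (ha : a ∈ A) (hb : b ∈ B) :
    hammingDist a b = ∑ j ∈ S, if a j ≠ b j then 1 else 0 := by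
  rw [← Finset.card_filter]
  unfold hammingDist
  congr 1
  ext i
  simp only [Finset.mem_filter, Finset.mem_univ, true_and]
  constructor
  · intro h
    refine ⟨?_, h⟩
    by_contra hi
    exact h (by rw [hA a ha i hi, hB b hb i hi])
  · exact fun h => h.2

theorem t_crit : S_crit := by
  intro ι _ _ Q S δ M A B h
  by_contra hcon
  push Not at hcon
  have h1 : ∑ p ∈ A ×ˢ B, hammingDist p.1 p.2 = δ * (A.card * B.card) := by
    rw [Finset.sum_congr rfl (g := fun _ => δ)]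
    · rw [Finset.sum_const, Finset.card_product, smul_eq_mul, mul_comm]
    · intro p hp
      rw [Finset.mem_product] at hp
      exact h.dist p.1 hp.1 p.2 hp.2
  have h2 : ∑ p ∈ A ×ˢ B, hammingDist p.1 p.2 =
      ∑ j ∈ S, ((A ×ˢ B).filter (fun p => p.1 j ≠ p.2 j)).card := by
    rw [Finset.sum_congr rfl (g := fun p => ∑ j ∈ S, if p.1 j ≠ p.2 j then 1 else 0)]
    · rw [Finset.sum_comm]
      refine Finset.sum_congr rfl fun j _ => ?_
      rw [Finset.card_filter]
    · intro p hp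
      rw [Finset.mem_product] at hp
      exact CR_ham Q S A B h.supA h.supB p.1 p.2 hp.1 hp.2
  have h3 : ∀ j ∈ S, ((A ×ˢ B).filter (fun p => p.1 j ≠ p.2 j)).card ≤ Q * M := by
    intro j hj
    have h4 := hcon j hj
    have h5 := CR_eq Q A B j
    have h6 := Finset.card_filter_add_card_filter_not (s := A ×ˢ B) (fun p => p.1 j = p.2 j)
    rw [h5, Finset.card_product] at h6
    have h7 : ((A ×ˢ B).filter (fun p => p.1 j ≠ p.2 j)).card =
      ((A ×ˢ B).filter (fun p => ¬ p.1 j = p.2 j)).card := rfl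
    omega
  have h8 : δ * (A.card * B.card) ≤ S.card * Q * M := by
    rw [← h1, h2]
    calc ∑ j ∈ S, ((A ×ˢ B).filter (fun p => p.1 j ≠ p.2 j)).card ≤ ∑ j ∈ S, Q * M :=
          Finset.sum_le_sum h3
      _ = S.card * Q * M := by rw [Finset.sum_const, smul_eq_mul, mul_assoc]
  exact absurd h.crit (not_lt.2 h8)

end H825CD
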