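import Pool.Agent.H825R2.CD.Defs

namespace H825CD
open Finset

theorem t_dist : S_dist := by
  intro ι _ _ Q j a b
  have hset : (univ.filter fun i => er j a i ≠ er j b i) =
      (univ.filter fun i => a i ≠ b i).erase j := by
    ext i
    simp only [mem_filter, mem_univ, true_and, mem_erase]
    unfold er
    by_cases h : i = j
    · subst h
      simp
    · simp [h]
  have h1 : hammingDist (er j a) (er j b) = ((univ.filter fun i => a i ≠ b i).erase j).card := by
    rw [← hset]; rfl
  have h2 : hammingDist a b = (univ.filter fun i => a i ≠ b i).card := rfl
  refine ⟨fun h => ?_, fun h => ?_⟩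
  · rw [h1, h2, card_erase_add_one]
    simpa using h
  · rw [h1, h2, erase_eq_of_notMem]
    simpa using h

end H825CD
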