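import Mathlib

/-! Constant distance code pairs: definitions and statements of the tasks.
Words are functions `ι → Fin (Q+1)`, alphabet size `q = Q + 1`. -/

namespace H825CD

open Finset

variable {ι : Type*} [Fintype ι] [DecidableEq ι] {Q : ℕ}

/-- erase the letter at coordinate `j` -/
def er (j : ι) (a : ι → Fin (Q + 1)) : ι → Fin (Q + 1) := Function.update a j 0

/-- all words of `A` vanish outside `S` -/
def Sup (S : Finset ι) (A : Finset (ι → Fin (Q + 1))) : Prop := ∀ a ∈ A, ∀ i, i ∉ S → a i = 0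

/-- `⌊q/2⌋⌈q/2⌉` for `q = Q + 1` -/
def qb (Q : ℕ) : ℕ := ((Q + 1) / 2) * ((Q + 2) / 2)

/-- Ahlswede's function for `q = Q + 1 ≥ 4` -/
def FF (Q n δ : ℕ) : ℕ :=
  (range (δ + 1)).sup fun i => Q ^ (δ - i) * qb Q ^ i * (n - i).choose (δ - i)

/-- a maximum pair `(A, B)` on the coordinate set `S` at distance `δ`, with the induction
hypothesis (`M` bounds all products one coordinate less) and the assumption that the product
is larger than Ahlswede's function -/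
structure Ctx (S : Finset ι) (δ M : ℕ) (A B : Finset (ι → Fin (Q + 1))) : Prop where
  supA : Sup S A
  supB : Sup S B
  dist : ∀ a ∈ A, ∀ b ∈ B, hammingDist a b = δ
  max : ∀ A' B' : Finset (ι → Fin (Q + 1)), Sup S A' → Sup S B' →
    (∀ a ∈ A', ∀ b ∈ B', hammingDist a b = δ) → A'.card * B'.card ≤ A.card * B.card
  ih1 : ∀ j ∈ S, ∀ A' B' : Finset (ι → Fin (Q + 1)), Sup (S.erase j) A' → Sup (S.erase j) B' →
    (∀ a ∈ A', ∀ b ∈ B', hammingDist a b + 1 = δ) → A'.card * B'.card ≤ M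
  ih2 : ∀ j ∈ S, ∀ i ∈ S, i ≠ j → ∀ A' B' : Finset (ι → Fin (Q + 1)),
    Sup ((S.erase j).erase i) A' → Sup ((S.erase j).erase i) B' →
    (∀ a ∈ A', ∀ b ∈ B', hammingDist a b + 2 = δ) → qb Q * (A'.card * B'.card) ≤ M
  big : qb Q * M < A.card * B.card
  crit : S.card * Q * M < δ * (A.card * B.card)

/-- letters used by `A` at coordinate `j` -/
def used (A : Finset (ι → Fin (Q + 1))) (j : ι) : Finset (Fin (Q + 1)) := A.image (fun a => a j)

/-- letters used by `A` but not by `B` at `j` -/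
def pur (A B : Finset (ι → Fin (Q + 1))) (j : ι) : Finset (Fin (Q + 1)) := used A j \ used B j

/-- letters used by both -/
def com (A B : Finset (ι → Fin (Q + 1))) (j : ι) : Finset (Fin (Q + 1)) := used A j ∩ used B j

/-- number of words of `A` with letter in `P` at `j` -/
def cnt (A : Finset (ι → Fin (Q + 1))) (j : ι) (P : Finset (Fin (Q + 1))) : ℕ :=
  (A.filter (fun a => a j ∈ P)).card

/-- number of words obtained by erasing the letter at `j` from the words of `A` with letter in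
`P` at `j` -/
def pcnt (A : Finset (ι → Fin (Q + 1))) (j : ι) (P : Finset (Fin (Q + 1))) : ℕ :=
  ((A.filter (fun a => a j ∈ P)).image (er j)).card

/-- number of words of `A` with letter `≠ x` at `j` -/
def na (A : Finset (ι → Fin (Q + 1))) (j : ι) (x : Fin (Q + 1)) : ℕ :=
  (A.filter (fun a => a j ≠ x)).card

/-- the same after erasing the letter at `j` -/
def nz (A : Finset (ι → Fin (Q + 1))) (j : ι) (x : Fin (Q + 1)) : ℕ :=
  ((A.filter (fun a => a j ≠ x)).image (er j)).card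

/-- words with `a j = x`, `a i = y` -/
def p00 (A : Finset (ι → Fin (Q + 1))) (j i : ι) (x y : Fin (Q + 1)) : ℕ :=
  (A.filter (fun a => a j = x ∧ a i = y)).card

/-- erase both coordinates from the words with `a j ≠ x`, `a i = y` -/
def z10 (A : Finset (ι → Fin (Q + 1))) (j i : ι) (x y : Fin (Q + 1)) : ℕ :=
  ((A.filter (fun a => a j ≠ x ∧ a i = y)).image (fun a => er i (er j a))).card

/-- erase both coordinates from the words with `a j = x`, `a i ≠ y` -/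
def z01 (A : Finset (ι → Fin (Q + 1))) (j i : ι) (x y : Fin (Q + 1)) : ℕ :=
  ((A.filter (fun a => a j = x ∧ a i ≠ y)).image (fun a => er i (er j a))).card

/-- erase both coordinates from the words with `a j ≠ x`, `a i ≠ y` -/
def z11 (A : Finset (ι → Fin (Q + 1))) (j i : ι) (x y : Fin (Q + 1)) : ℕ :=
  ((A.filter (fun a => a j ≠ x ∧ a i ≠ y)).image (fun a => er i (er j a))).card

/-- `A` is a twin set at `(j, i)` -/
def Twin (A : Finset (ι → Fin (Q + 1))) (j i : ι) (x y : Fin (Q + 1)) : Prop :=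
  ∀ a ∈ A, (a j = x ↔ a i = y)

/-! ### Statements, combinatorial part -/

/-- D1: erasing one coordinate and the Hamming distance -/
def S_dist : Prop := ∀ (ι : Type) [Fintype ι] [DecidableEq ι] (Q : ℕ) (j : ι)
  (a b : ι → Fin (Q + 1)),
  (a j ≠ b j → hammingDist (er j a) (er j b) + 1 = hammingDist a b) ∧
  (a j = b j → hammingDist (er j a) (er j b) = hammingDist a b)

/-- D2: a context may be reflected -/
def S_symm : Prop := ∀ (ι : Type) [Fintype ι] [DecidableEq ι] (Q : ℕ) (S : Finset ι) (δ M : ℕ)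
  (A B : Finset (ι → Fin (Q + 1))), Ctx S δ M A B → Ctx S δ M B A

/-- C1: the split inequality -/
def S_split : Prop := ∀ (ι : Type) [Fintype ι] [DecidableEq ι] (Q : ℕ) (S : Finset ι) (δ M : ℕ)
  (A B : Finset (ι → Fin (Q + 1))), Ctx S δ M A B → ∀ j ∈ S, ∀ P R : Finset (Fin (Q + 1)),
  Disjoint P R → pcnt A j P * pcnt B j R ≤ M

/-- C2: structure at one coordinate. For `P ⊆ com`, the erased words are counted without
repetition; a word with a pure letter has at most `(pur A B j).card` letters. -/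
def S_struct : Prop := ∀ (ι : Type) [Fintype ι] [DecidableEq ι] (Q δ : ℕ)
  (A B : Finset (ι → Fin (Q + 1))), (∀ a ∈ A, ∀ b ∈ B, hammingDist a b = δ) → ∀ j : ι,
  (∀ P ⊆ com A B j, pcnt A j (P ∪ pur A B j) = cnt A j P + pcnt A j (pur A B j)) ∧
  cnt A j (pur A B j) ≤ (pur A B j).card * pcnt A j (pur A B j) ∧
  cnt A j (com A B j) + cnt A j (pur A B j) = A.card ∧
  (∀ P : Finset (Fin (Q + 1)), cnt A j P = ∑ x ∈ P, cnt A j {x}) ∧
  (com A B j).card + (pur A B j).card + (pur B A j).card ≤ Q + 1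

/-- C3: a critical coordinate exists -/
def S_crit : Prop := ∀ (ι : Type) [Fintype ι] [DecidableEq ι] (Q : ℕ) (S : Finset ι) (δ M : ℕ)
  (A B : Finset (ι → Fin (Q + 1))), Ctx S δ M A B →
  ∃ j ∈ S, Q * M + ∑ x : Fin (Q + 1), cnt A j {x} * cnt B j {x} < A.card * B.card

/-- C4: letters different from a common letter `y`. -/
def S_fib : Prop := ∀ (ι : Type) [Fintype ι] [DecidableEq ι] (Q δ : ℕ)
  (A B : Finset (ι → Fin (Q + 1))), (∀ a ∈ A, ∀ b ∈ B, hammingDist a b = δ) →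
  ∀ (i : ι) (y : Fin (Q + 1)), y ∈ com A B i →
  na A i y ≤ max 1 (pur A B i).card * nz A i y ∧
  (2 ≤ Q → na A i y ≠ 0 → na B i y ≠ 0 → max 1 (pur A B i).card + max 1 (pur B A i).card ≤ Q)

/-- C5: the two simplest splits -/
def S_split1 : Prop := ∀ (ι : Type) [Fintype ι] [DecidableEq ι] (Q : ℕ) (S : Finset ι) (δ M : ℕ)
  (A B : Finset (ι → Fin (Q + 1))), Ctx S δ M A B → ∀ j ∈ S, ∀ x : Fin (Q + 1),
  nz A j x * (B.card - na B j x) ≤ M ∧
  (com A B j = {x} → nz A j x * (B.card - na B j x + nz B j x) ≤ M)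

/-- C6: alternative at one coordinate -/
def S_E : Prop := ∀ (ι : Type) [Fintype ι] [DecidableEq ι] (Q : ℕ) (S : Finset ι) (δ M : ℕ)
  (A B : Finset (ι → Fin (Q + 1))), Ctx S δ M A B → ∀ j ∈ S, ∀ x : Fin (Q + 1),
  (A.card - na A j x) * ((B.card - na B j x) + Q * nz B j x) ≤ A.card * B.card

/-- C7: alternative at two coordinates (not twin) -/
def S_V : Prop := ∀ (ι : Type) [Fintype ι] [DecidableEq ι] (Q : ℕ) (S : Finset ι) (δ M : ℕ)
  (A B : Finset (ι → Fin (Q + 1))), Ctx S δ M A B → ∀ j ∈ S, ∀ i ∈ S, i ≠ j →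
  ∀ x y : Fin (Q + 1), com A B j = {x} → ¬ Twin A j i x y →
  p00 A j i x y * (p00 B j i x y + 2 * Q * (z10 B j i x y + z01 B j i x y)
    + Q ^ 2 * z11 B j i x y) ≤ A.card * B.card

/-- C8: pairs two coordinates down -/
def S_SS : Prop := ∀ (ι : Type) [Fintype ι] [DecidableEq ι] (Q : ℕ) (S : Finset ι) (δ M : ℕ)
  (A B : Finset (ι → Fin (Q + 1))), Ctx S δ M A B → ∀ j ∈ S, ∀ i ∈ S, i ≠ j →
  ∀ x y : Fin (Q + 1), qb Q * (p00 A j i x y * z11 B j i x y) ≤ M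

/-- C9: relations between the erased counts -/
def S_rel : Prop := ∀ (ι : Type) [Fintype ι] [DecidableEq ι] (Q δ : ℕ)
  (A B : Finset (ι → Fin (Q + 1))), (∀ a ∈ A, ∀ b ∈ B, hammingDist a b = δ) →
  ∀ j i : ι, i ≠ j → ∀ x y : Fin (Q + 1), com A B j = {x} → y ∈ com A B i →
  nz A j x ≤ z10 A j i x y + max 1 (pur A B i).card * z11 A j i x y ∧
  nz A i y ≤ z01 A j i x y + (pur A B j).card * z11 A j i x y ∧
  A.card ≤ p00 A j i x y + na A j x + na A i y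

/-- C10: the partner coordinate -/
def S_partner : Prop := ∀ (ι : Type) [Fintype ι] [DecidableEq ι] (Q : ℕ) (S : Finset ι) (δ : ℕ)
  (A B : Finset (ι → Fin (Q + 1))), Sup S A → Sup S B →
  (∀ a ∈ A, ∀ b ∈ B, hammingDist a b = δ) → ∀ j : ι, ∀ x : Fin (Q + 1), com A B j = {x} →
  na A j x ≠ 0 → na B j x ≠ 0 →
  ∃ i ∈ S, i ≠ j ∧ ∀ y : Fin (Q + 1), na A i y ≠ 0 ∧ na B i y ≠ 0

/-- C11: facts on Ahlswede's function -/
def S_FF : Prop := ∀ Q n δ : ℕ, 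
  qb Q * FF Q n δ ≤ FF Q (n + 1) (δ + 1) ∧
  (δ ≤ n → (n + 1) * Q * FF Q n δ ≤ (δ + 1) * FF Q (n + 1) (δ + 1)) ∧
  1 ≤ FF Q n 0 ∧ (Q + 1) ^ 2 ≤ 4 * qb Q + 1 ∧ (∀ k l : ℕ, k + l ≤ Q + 1 → k * l ≤ qb Q)

/-! ### Statements, real part -/

/-- the hypotheses on the pure letters at one coordinate; `a ≤ k z`, `b ≤ l w` are the fractions
of words with a pure letter -/
structure Pure (Q m k l a b z w : ℝ) : Prop where
  hQ : 11 ≤ Q
  hm0 : 0 ≤ m
  hm : Q * (Q + 2) * m ≤ 4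
  hk : k = 0 ∨ 1 ≤ k
  hl : l = 0 ∨ 1 ≤ l
  hkl : k + l ≤ Q
  ha0 : 0 ≤ a
  hb0 : 0 ≤ b
  ha1 : a ≤ 1
  hb1 : b ≤ 1
  hz : 0 ≤ z
  hw : 0 ≤ w
  ha : a ≤ k * z
  hb : b ≤ l * w
  h1 : z * (1 - b + w) ≤ m
  h2 : w * (1 - a + z) ≤ m

/-- R1: pure letters carry little weight -/
def S_pure : Prop := ∀ Q m k l a b z w : ℝ, Pure Q m k l a b z w →
  a ≤ 67 / 50 * k * m ∧ b ≤ 67 / 50 * l * m

/-- R2: there is a dominating common letter -/
def S_dom : Prop := ∀ (N : ℕ) (C : Finset (Fin N)) (α β : Fin N → ℝ) (Q m k l a b z w : ℝ),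
  Pure Q m k l a b z w → (∀ x ∈ C, 0 ≤ α x) → (∀ x ∈ C, 0 ≤ β x) →
  ∑ x ∈ C, α x + a = 1 → ∑ x ∈ C, β x + b = 1 →
  (∀ P ⊆ C, (∑ x ∈ P, α x + z) * (∑ x ∈ C \ P, β x + w) ≤ m) →
  ∃ t ∈ C, 1 / 2 ≤ α t ∧ 1 / 2 ≤ β t

/-- R3: a coordinate with at least two common letters is not critical -/
def S_nc : Prop := ∀ (N : ℕ) (C : Finset (Fin N)) (α β : Fin N → ℝ) (Q m k l a b z w : ℝ),
  Pure Q m k l a b z w → (∀ x ∈ C, 0 ≤ α x) → (∀ x ∈ C, 0 ≤ β x) →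
  ∑ x ∈ C, α x + a = 1 → ∑ x ∈ C, β x + b = 1 →
  (∀ P ⊆ C, (∑ x ∈ P, α x + z) * (∑ x ∈ C \ P, β x + w) ≤ m) →
  2 ≤ C.card → (C.card : ℝ) + k + l ≤ Q + 1 → (∃ t ∈ C, 1 / 2 ≤ α t ∧ 1 / 2 ≤ β t) →
  1 - ∑ x ∈ C, α x * β x ≤ Q * m

/-- R4: the gain inequality -/
def S_gain : Prop := ∀ Q k l a b z w : ℝ, 1 ≤ k → 1 ≤ l → k + l ≤ Q → 0 < a → 0 < b → a < 1 →
  b < 1 → a ≤ k * z → b ≤ l * w →
  (1 - a) * (1 - b + Q * w) ≤ 1 → (1 - b) * (1 - a + Q * z) ≤ 1 →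
  a + b - a * b ≤ Q * w ∧ a + b - a * b ≤ Q * z

/-- normalised data at the critical coordinate `j` and the partner coordinate `i` -/
structure Fin2 (Q qq m k l K L aj bj zj wj ai bi zi wi p r : ℝ) : Prop where
  hQ : 11 ≤ Q
  hqq : Q * (Q + 2) ≤ 4 * qq
  hm : qq * m ≤ 1
  hm0 : 0 < m
  hk : 1 ≤ k
  hl : 1 ≤ l
  hkl : k + l ≤ Q
  hK : 1 ≤ K
  hL : 1 ≤ L
  hKL : K + L ≤ Q
  haj0 : 0 < aj
  hbj0 : 0 < bj
  hai0 : 0 < ai
  hbi0 : 0 < bi
  haj2 : aj ≤ 1 / 2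
  hbj2 : bj ≤ 1 / 2
  hai2 : ai ≤ 1 / 2
  hbi2 : bi ≤ 1 / 2
  haj : aj ≤ k * zj
  hbj : bj ≤ l * wj
  hai : ai ≤ K * zi
  hbi : bi ≤ L * wi
  hJ1 : zj * (1 - bj + wj) ≤ m
  hJ2 : wj * (1 - aj + zj) ≤ m
  hJ3 : Q * m < aj + bj - aj * bj
  hI1 : zi * (1 - bi) ≤ m
  hI2 : wi * (1 - ai) ≤ m
  hp : 1 - aj - ai ≤ p
  hr : 1 - bj - bi ≤ r
  hgj1 : aj + bj - aj * bj ≤ Q * wj
  hgj2 : aj + bj - aj * bj ≤ Q * zj
  hgi1 : ai + bi - ai * bi ≤ Q * wi
  hgi2 : ai + bi - ai * bi ≤ Q * zi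

/-- R5: final contradiction, no twins -/
def S_final : Prop := ∀ Q qq m k l K L aj bj zj wj ai bi zi wi p r
    Z10 Z01 Z11 W10 W01 W11 : ℝ, Fin2 Q qq m k l K L aj bj zj wj ai bi zi wi p r →
  0 ≤ Z10 → 0 ≤ Z01 → 0 ≤ Z11 → 0 ≤ W10 → 0 ≤ W01 → 0 ≤ W11 →
  p * (r + 2 * Q * (W10 + W01) + Q ^ 2 * W11) ≤ 1 →
  r * (p + 2 * Q * (Z10 + Z01) + Q ^ 2 * Z11) ≤ 1 →
  zj ≤ Z10 + K * Z11 → zi ≤ Z01 + k * Z11 → wj ≤ W10 + L * W11 → wi ≤ W01 + l * W11 →
  qq * (p * W11) ≤ m → qq * (r * Z11) ≤ m → False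

/-- R6: final contradiction, `A` twin -/
def S_twin : Prop := ∀ Q qq m k l K L aj bj zj wj ai bi zi wi p r Z11 : ℝ,
  Fin2 Q qq m k l K L aj bj zj wj ai bi zi wi p r → 0 ≤ Z11 → zj ≤ K * Z11 →
  qq * (r * Z11) ≤ m → False

/-! ### Assembly -/

/-- T1: one coordinate, from the real lemmas -/
def S_coord : Prop := ∀ (ι : Type) [Fintype ι] [DecidableEq ι] (Q : ℕ) (S : Finset ι) (δ M : ℕ)
  (A B : Finset (ι → Fin (Q + 1))), 11 ≤ Q → Ctx S δ M A B → ∀ j ∈ S,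
  (∃ t ∈ com A B j, 2 * na A j t ≤ A.card ∧ 2 * na B j t ≤ B.card) ∧
  (Q * M + ∑ x : Fin (Q + 1), cnt A j {x} * cnt B j {x} < A.card * B.card →
    (com A B j).card = 1)

/-- T2: no context exists -/
def S_false : Prop := ∀ (ι : Type) [Fintype ι] [DecidableEq ι] (Q : ℕ) (S : Finset ι) (δ M : ℕ)
  (A B : Finset (ι → Fin (Q + 1))), 11 ≤ Q → ¬ Ctx S δ M A B

/-- T3: the theorem -/
def S_main : Prop := ∀ (ι : Type) [Fintype ι] [DecidableEq ι] (Q : ℕ), 11 ≤ Q →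
  ∀ (n : ℕ) (S : Finset ι), S.card = n → ∀ (δ : ℕ) (A B : Finset (ι → Fin (Q + 1))),
  Sup S A → Sup S B → (∀ a ∈ A, ∀ b ∈ B, hammingDist a b = δ) → A.card * B.card ≤ FF Q n δ

end H825CD
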