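import Pool.Agent.H825R2.CD.Defs

namespace H825CD
open Finset

theorem EE_er_zero {ι : Type*} [DecidableEq ι] {Q : ℕ} (j : ι) (a : ι → Fin (Q + 1)) :
    er j a j = 0 := by
  simp [er]

theorem EE_er_update {ι : Type*} [DecidableEq ι] {Q : ℕ} (j : ι) (b : ι → Fin (Q + 1))
    (y : Fin (Q + 1)) : er j (Function.update (er j b) j y) = er j b := by
  funext i
  by_cases hi : i = j
  · subst hi; simp [er]
  · simp [er, Function.update_of_ne hi]

theorem t_E (h : S_dist) : S_E := by
  intro ι _ _ Q S δ M A B hc j hj x
  classical
  have hA : A.card - na A j x = (A.filter (fun a => a j = x)).card := by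
    have h1 := Finset.card_filter_add_card_filter_not (s := A) (fun a => a j = x)
    unfold na
    have h2 : (A.filter (fun a => a j ≠ x)).card = (A.filter (fun a => ¬ a j = x)).card := rfl
    omega
  have hB : B.card - na B j x = (B.filter (fun a => a j = x)).card := by
    have h1 := Finset.card_filter_add_card_filter_not (s := B) (fun a => a j = x)
    unfold na
    have h2 : (B.filter (fun a => a j ≠ x)).card = (B.filter (fun a => ¬ a j = x)).card := rfl
    omega
  set W := (B.filter (fun a => a j ≠ x)).image (er j) with hW
  have hWz : ∀ c ∈ W, c j = 0 := by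
    intro c hc'
    rw [hW, Finset.mem_image] at hc'
    obtain ⟨b, _, rfl⟩ := hc'
    exact EE_er_zero j b
  set I := ((univ.erase x) ×ˢ W).image
    (fun p : Fin (Q + 1) × (ι → Fin (Q + 1)) => Function.update p.2 j p.1) with hI
  have hIcard : I.card = Q * nz B j x := by
    rw [hI, Finset.card_image_of_injOn, Finset.card_product, Finset.card_erase_of_mem (mem_univ x),
      Finset.card_univ, Fintype.card_fin]
    · simp [nz, hW]
    · rintro ⟨y, c⟩ hyc ⟨y', c'⟩ hyc' heq
      simp only [Finset.coe_product, Set.mem_prod, Finset.mem_coe] at hyc hyc'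
      simp only at heq
      have h1 : y = y' := by
        have := congrFun heq j
        simpa using this
      have h2 : c = c' := by
        funext i
        by_cases hi : i = j
        · subst hi
          rw [hWz c hyc.2, hWz c' hyc'.2]
        · have := congrFun heq i
          simpa [Function.update_of_ne hi] using this
      rw [h1, h2]
  have hdisj : Disjoint (B.filter (fun a => a j = x)) I := by
    rw [Finset.disjoint_left]
    intro b hb hbI
    rw [Finset.mem_filter] at hb
    rw [hI, Finset.mem_image] at hbI
    obtain ⟨⟨y, c⟩, hp, hpe⟩ := hbI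
    rw [Finset.mem_product, Finset.mem_erase] at hp
    apply hp.1.1
    have := congrFun hpe j
    simp only [Function.update_self] at this
    rw [this, hb.2]
  have hB' : ((B.filter (fun a => a j = x)) ∪ I).card
      = (B.card - na B j x) + Q * nz B j x := by
    rw [Finset.card_union_of_disjoint hdisj, hIcard, hB]
  rw [hA, ← hB']
  apply hc.max
  · intro a ha i hi
    exact hc.supA a (Finset.mem_filter.mp ha).1 i hi
  · intro b hb i hi
    rw [Finset.mem_union] at hb
    rcases hb with hb | hb
    · exact hc.supB b (Finset.mem_filter.mp hb).1 i hi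
    · rw [hI, Finset.mem_image] at hb
      obtain ⟨⟨y, c⟩, hp, rfl⟩ := hb
      rw [Finset.mem_product] at hp
      have hij : i ≠ j := fun hij => hi (hij ▸ hj)
      simp only [Function.update_of_ne hij]
      have hcW : c ∈ W := hp.2
      rw [hW, Finset.mem_image] at hcW
      obtain ⟨b, hb, rfl⟩ := hcW
      simp only [er, Function.update_of_ne hij]
      exact hc.supB b (Finset.mem_filter.mp hb).1 i hi
  · intro a ha b hb
    rw [Finset.mem_filter] at ha
    rw [Finset.mem_union] at hb
    rcases hb with hb | hb
    · exact hc.dist a ha.1 b (Finset.mem_filter.mp hb).1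
    · rw [hI, Finset.mem_image] at hb
      obtain ⟨⟨y, c⟩, hp, rfl⟩ := hb
      rw [Finset.mem_product, Finset.mem_erase] at hp
      have hcW : c ∈ W := hp.2
      rw [hW, Finset.mem_image] at hcW
      obtain ⟨b, hb, rfl⟩ := hcW
      rw [Finset.mem_filter] at hb
      have hne : a j ≠ b j := by rw [ha.2]; exact fun hh => hb.2 hh.symm
      have h1 := (h ι Q j a b).1 hne
      have hne2 : a j ≠ (Function.update (er j b) j y) j := by
        rw [Function.update_self, ha.2]
        exact fun hh => hp.1.1 hh.symm
      have h2 := (h ι Q j a (Function.update (er j b) j y)).1 hne2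
      rw [EE_er_update] at h2
      rw [hc.dist a ha.1 b hb.1] at h1
      show hammingDist a (Function.update (er j b) j y) = δ
      omega

end H825CD
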