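import Pool.Agent.H825R2.CD.Defs

namespace H825CD
open Finset

theorem t_FF : S_FF := by
  intro Q n δ
  have h4 : (Q + 1) ^ 2 ≤ 4 * qb Q + 1 := by
    unfold qb
    rcases Nat.even_or_odd' Q with ⟨t, rfl | rfl⟩
    · have e1 : (2 * t + 1) / 2 = t := by omega
      have e2 : (2 * t + 2) / 2 = t + 1 := by omega
      rw [e1, e2]
      nlinarith
    · have e1 : (2 * t + 1 + 1) / 2 = t + 1 := by omega
      have e2 : (2 * t + 1 + 2) / 2 = t + 1 := by omega
      rw [e1, e2]
      nlinarith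
  refine ⟨?_, ?_, ?_, h4, ?_⟩
  · obtain ⟨i, hi, he⟩ := Finset.exists_mem_eq_sup (range (δ + 1)) ⟨0, by simp⟩
      (fun i => Q ^ (δ - i) * qb Q ^ i * (n - i).choose (δ - i))
    have h1 : FF Q n δ = Q ^ (δ - i) * qb Q ^ i * (n - i).choose (δ - i) := he
    have h2 : Q ^ (δ + 1 - (i + 1)) * qb Q ^ (i + 1) * (n + 1 - (i + 1)).choose (δ + 1 - (i + 1)) ≤
        FF Q (n + 1) (δ + 1) := by
      unfold FF
      exact Finset.le_sup (s := range (δ + 1 + 1))
        (f := fun i => Q ^ (δ + 1 - i) * qb Q ^ i * (n + 1 - i).choose (δ + 1 - i))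
        (by rw [mem_range] at hi ⊢; omega)
    rw [h1]
    refine le_trans (le_of_eq ?_) h2
    rw [Nat.add_sub_add_right, Nat.add_sub_add_right]
    ring
  · intro hδ
    obtain ⟨i, hi, he⟩ := Finset.exists_mem_eq_sup (range (δ + 1)) ⟨0, by simp⟩
      (fun i => Q ^ (δ - i) * qb Q ^ i * (n - i).choose (δ - i))
    have h1 : FF Q n δ = Q ^ (δ - i) * qb Q ^ i * (n - i).choose (δ - i) := he
    have hi' : i ≤ δ := by rw [mem_range] at hi; omega
    have h2 : Q ^ (δ + 1 - i) * qb Q ^ i * (n + 1 - i).choose (δ + 1 - i) ≤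
        FF Q (n + 1) (δ + 1) := by
      unfold FF
      exact Finset.le_sup (s := range (δ + 1 + 1))
        (f := fun i => Q ^ (δ + 1 - i) * qb Q ^ i * (n + 1 - i).choose (δ + 1 - i))
        (by rw [mem_range]; omega)
    rw [h1]
    refine le_trans ?_ (Nat.mul_le_mul_left _ h2)
    obtain ⟨d, rfl⟩ := Nat.exists_eq_add_of_le hi'
    obtain ⟨m, rfl⟩ := Nat.exists_eq_add_of_le (le_trans hi' hδ)
    have e1 : i + d - i = d := by omega
    have e2 : i + m - i = m := by omega
    have e3 : i + d + 1 - i = d + 1 := by omega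
    have e4 : i + m + 1 - i = m + 1 := by omega
    rw [e1, e2, e3, e4]
    have hdm : d ≤ m := by omega
    have h5 : (m + 1) * m.choose d = (m + 1).choose (d + 1) * (d + 1) :=
      Nat.add_one_mul_choose_eq m d
    have h6 : (i + m + 1) * m.choose d ≤ (i + d + 1) * (m + 1).choose (d + 1) := by
      have h7 : (i + m + 1) * m.choose d * (d + 1) ≤
          (i + d + 1) * (m + 1).choose (d + 1) * (d + 1) := by
        calc (i + m + 1) * m.choose d * (d + 1) = ((i + m + 1) * (d + 1)) * m.choose d := by ring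
          _ ≤ ((i + d + 1) * (m + 1)) * m.choose d := by
              apply Nat.mul_le_mul_right
              nlinarith
          _ = (i + d + 1) * ((m + 1) * m.choose d) := by ring
          _ = (i + d + 1) * (m + 1).choose (d + 1) * (d + 1) := by rw [h5]; ring
      exact Nat.le_of_mul_le_mul_right h7 (Nat.succ_pos d)
    calc (i + m + 1) * Q * (Q ^ d * qb Q ^ i * m.choose d)
        = (Q ^ (d + 1) * qb Q ^ i) * ((i + m + 1) * m.choose d) := by ring
      _ ≤ (Q ^ (d + 1) * qb Q ^ i) * ((i + d + 1) * (m + 1).choose (d + 1)) :=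
          Nat.mul_le_mul_left _ h6
      _ = (i + d + 1) * (Q ^ (d + 1) * qb Q ^ i * (m + 1).choose (d + 1)) := by ring
  · unfold FF
    simp
  · intro k l hkl
    have h5 : 4 * (k * l) ≤ (Q + 1) ^ 2 := by
      have h6 : (k + l) ^ 2 ≤ (Q + 1) ^ 2 := Nat.pow_le_pow_left hkl 2
      have h7 : 4 * (k * l) ≤ (k + l) ^ 2 := by
        zify
        nlinarith [sq_nonneg ((k : ℤ) - l)]
      exact le_trans h7 h6
    omega

end H825CD
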