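import Pool.Agent.H825R2.CD.Defs

namespace H825CD
open Finset

theorem FI_notused (h : S_dist) (ι : Type) [Fintype ι] [DecidableEq ι] (Q δ : ℕ)
    (A B : Finset (ι → Fin (Q + 1))) (hd : ∀ a ∈ A, ∀ b ∈ B, hammingDist a b = δ) (i : ι)
    (a a' : ι → Fin (Q + 1)) (ha : a ∈ A) (ha' : a' ∈ A) (he : er i a = er i a')
    (hne : a i ≠ a' i) : a i ∉ used B i := by
  intro hu
  rw [used, mem_image] at hu
  obtain ⟨b, hb, hbi⟩ := hu
  have h1 := (h ι Q i a b).2 hbi.symm
  have h2 := (h ι Q i a' b).1 (fun h3 => hne (hbi.symm.trans h3.symm))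
  rw [hd a ha b hb] at h1
  rw [hd a' ha' b hb, ← he, h1] at h2
  omega

theorem FI_inj {ι : Type} [Fintype ι] [DecidableEq ι] {Q : ℕ} (i : ι)
    (a a' : ι → Fin (Q + 1)) (he : er i a = er i a') (hi : a i = a' i) : a = a' := by
  funext k
  by_cases hk : k = i
  · rw [hk, hi]
  · have := congrFun he k
    simpa [er, Function.update_of_ne hk] using this

theorem t_fib (h : S_dist) : S_fib := by
  intro ι _ _ Q δ A B hd i y hy
  refine ⟨?_, ?_⟩
  · unfold na nz
    apply card_le_mul_card_image
    intro c _
    set F := (A.filter (fun a => a i ≠ y)).filter (fun a => er i a = c) with hF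
    by_cases h1 : F.card ≤ 1
    · exact h1.trans (le_max_left _ _)
    · refine le_trans ?_ (le_max_right _ _)
      push Not at h1
      refine card_le_card_of_injOn (fun a => a i) ?_ ?_
      · intro a ha
        have ha0 : a ∈ F := ha
        obtain ⟨a', ha', hne⟩ := exists_mem_ne h1 a
        have hm := ha0
        have hm' := ha'
        rw [hF, mem_filter, mem_filter] at hm hm'
        have he : er i a = er i a' := hm.2.trans hm'.2.symm
        have hi : a i ≠ a' i := fun h2 => hne (FI_inj i a a' he h2).symm
        show a i ∈ pur A B i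
        rw [pur, mem_sdiff]
        refine ⟨?_, FI_notused h ι Q δ A B hd i a a' hm.1.1 hm'.1.1 he hi⟩
        rw [used, mem_image]
        exact ⟨a, hm.1.1, rfl⟩
      · intro a ha a' ha' hi
        have hm : a ∈ F := ha
        have hm' : a' ∈ F := ha'
        rw [hF, mem_filter, mem_filter] at hm hm'
        exact FI_inj i a a' (hm.2.trans hm'.2.symm) hi
  · intro hQ hA hB
    have hc1 : 1 ≤ (com A B i).card := card_pos.2 ⟨y, hy⟩
    have hsum : (com A B i).card + (pur A B i).card + (pur B A i).card ≤ Q + 1 := by
      have d1 : Disjoint (com A B i) (pur A B i) := by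
        rw [disjoint_left]
        intro z hz hz'
        rw [com, mem_inter] at hz
        rw [pur, mem_sdiff] at hz'
        exact hz'.2 hz.2
      have d2 : Disjoint (com A B i ∪ pur A B i) (pur B A i) := by
        rw [disjoint_left]
        intro z hz hz'
        rw [pur, mem_sdiff] at hz'
        rw [mem_union] at hz
        rcases hz with hz | hz
        · rw [com, mem_inter] at hz
          exact hz'.2 hz.1
        · rw [pur, mem_sdiff] at hz
          exact hz'.2 hz.1
      rw [← card_union_of_disjoint d1, ← card_union_of_disjoint d2]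
      have := card_le_univ (com A B i ∪ pur A B i ∪ pur B A i)
      rwa [Fintype.card_fin] at this
    have key : ∀ A' B' : Finset (ι → Fin (Q + 1)), na A' i y ≠ 0 → y ∈ com A' B' i →
        2 ≤ (com A' B' i).card ∨ 1 ≤ (pur A' B' i).card := by
      intro A' B' hA' hy'
      obtain ⟨a, ha⟩ := card_pos.1 (Nat.pos_of_ne_zero hA')
      rw [mem_filter] at ha
      have hua : a i ∈ used A' i := mem_image.2 ⟨a, ha.1, rfl⟩
      by_cases hub : a i ∈ used B' i
      · left
        have : 1 < (com A' B' i).card :=
          one_lt_card.2 ⟨a i, mem_inter.2 ⟨hua, hub⟩, y, hy', ha.2⟩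
        omega
      · right
        exact card_pos.2 ⟨a i, mem_sdiff.2 ⟨hua, hub⟩⟩
    have k1 := key A B hA hy
    have hcomm : com B A i = com A B i := inter_comm _ _
    have k2 := key B A hB (by rw [hcomm]; exact hy)
    rw [hcomm] at k2
    rw [max_def, max_def]
    split_ifs <;> omega

end H825CD
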