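import Pool.Agent.H825R2.CD.Defs

namespace H825CD
open Finset

theorem t_partner : S_partner := by
  intro ι _ _ Q S δ A B hSA hSB hd j x hcom hnA hnB
  -- the four words
  have hx : x ∈ com A B j := by rw [hcom]; exact mem_singleton_self x
  rw [com, mem_inter, used, used, mem_image, mem_image] at hx
  obtain ⟨⟨a, ha, hax⟩, ⟨b, hb, hbx⟩⟩ := hx
  obtain ⟨a', ha'⟩ := card_pos.mp (Nat.pos_of_ne_zero hnA)
  obtain ⟨b', hb'⟩ := card_pos.mp (Nat.pos_of_ne_zero hnB)
  obtain ⟨ha'A, ha'x⟩ := mem_filter.mp ha'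
  obtain ⟨hb'B, hb'x⟩ := mem_filter.mp hb'
  have hne : a' j ≠ b' j := by
    intro h
    have : a' j ∈ com A B j := by
      rw [com, mem_inter, used, used, mem_image, mem_image]
      exact ⟨⟨a', ha'A, rfl⟩, ⟨b', hb'B, h.symm⟩⟩
    rw [hcom, mem_singleton] at this
    exact ha'x this
  -- distances as sums
  have hsum : ∀ p q : ι → Fin (Q + 1), ((hammingDist p q : ℕ) : ℤ) =
      ∑ i, if p i ≠ q i then (1 : ℤ) else 0 := by
    intro p q
    have : hammingDist p q = (univ.filter fun i => p i ≠ q i).card := rfl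
    rw [this, card_filter]
    push_cast
    rfl
  set t : ι → ℤ := fun i => (if a i ≠ b i then (1 : ℤ) else 0) - (if a i ≠ b' i then 1 else 0) -
    (if a' i ≠ b i then 1 else 0) + (if a' i ≠ b' i then 1 else 0) with ht
  have h0 : ∑ i, t i = 0 := by
    simp only [ht]
    rw [sum_add_distrib, sum_sub_distrib, sum_sub_distrib, ← hsum, ← hsum, ← hsum, ← hsum,
      hd a ha b hb, hd a ha b' hb'B, hd a' ha'A b hb, hd a' ha'A b' hb'B]
    ring
  have hj : t j = -1 := by
    simp only [ht]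
    have e1 : a j = b j := hax.trans hbx.symm
    have e2 : a j ≠ b' j := by rw [hax]; exact fun h => hb'x h.symm
    have e3 : a' j ≠ b j := by rw [hbx]; exact ha'x
    simp [e1, e3, hne]
    rw [← e1]
    exact e2
  have h1 : ∃ i, i ≠ j ∧ 0 < t i := by
    by_contra hcon
    push Not at hcon
    have : ∑ i, t i < 0 := by
      rw [← add_sum_erase univ t (mem_univ j), hj]
      have : ∑ i ∈ univ.erase j, t i ≤ 0 := sum_nonpos (fun i hi => hcon i (ne_of_mem_erase hi))
      linarith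
    omega
  obtain ⟨i, hij, hti⟩ := h1
  have hai : a i ≠ a' i := by
    intro h
    simp only [ht, h] at hti
    omega
  have hbi : b i ≠ b' i := by
    intro h
    simp only [ht, h] at hti
    omega
  have hiS : i ∈ S := by
    by_contra hiS
    exact hai ((hSA a ha i hiS).trans (hSA a' ha'A i hiS).symm)
  refine ⟨i, hiS, hij, fun y => ⟨?_, ?_⟩⟩
  · apply Nat.pos_iff_ne_zero.mp
    rw [na, card_pos]
    by_cases h : a i = y
    · exact ⟨a', mem_filter.mpr ⟨ha'A, fun h2 => hai (h.trans h2.symm)⟩⟩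
    · exact ⟨a, mem_filter.mpr ⟨ha, h⟩⟩
  · apply Nat.pos_iff_ne_zero.mp
    rw [na, card_pos]
    by_cases h : b i = y
    · exact ⟨b', mem_filter.mpr ⟨hb'B, fun h2 => hbi (h.trans h2.symm)⟩⟩
    · exact ⟨b, mem_filter.mpr ⟨hb, h⟩⟩

end H825CD
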