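import Pool.Agent.H825R2.CD.Defs

namespace H825CD

open Finset

theorem R1_side (Q m k l a b z w : ℝ) (h : Pure Q m k l a b z w) : a ≤ 67 / 50 * k * m := by
  obtain ⟨hQ, hm0, hm, hk, hl, hkl, ha0, hb0, ha1, hb1, hz, hw, ha, hb, h1, h2⟩ := h
  rcases hk with hk | hk
  · rw [hk, zero_mul] at ha
    rw [hk]
    simpa using ha
  rcases hl with hl | hl
  · rw [hl, zero_mul] at hb
    have hb' : b = 0 := le_antisymm hb hb0
    rw [hb'] at h1
    have hzm : z ≤ m := by nlinarith [mul_nonneg hz hw]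
    have hkm : 0 ≤ k * m := by positivity
    calc a ≤ k * z := ha
      _ ≤ k * m := mul_le_mul_of_nonneg_left hzm (by linarith)
      _ ≤ 67 / 50 * k * m := by nlinarith
  have hk0 : 0 < k := by linarith
  have hl0 : 0 < l := by linarith
  have hI : a * (l - (l - 1) * b) ≤ k * l * m := by
    have hf : 0 ≤ l - (l - 1) * b := by
      have f1 := mul_nonneg (sub_nonneg.2 hl) (sub_nonneg.2 hb1)
      nlinarith
    have e1 : l - (l - 1) * b ≤ l * (1 - b + w) := by nlinarith
    have hkz : 0 ≤ k * z := by positivity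
    calc a * (l - (l - 1) * b) ≤ (k * z) * (l - (l - 1) * b) := mul_le_mul_of_nonneg_right ha hf
      _ ≤ (k * z) * (l * (1 - b + w)) := mul_le_mul_of_nonneg_left e1 hkz
      _ = (k * l) * (z * (1 - b + w)) := by ring
      _ ≤ (k * l) * m := mul_le_mul_of_nonneg_left h1 (by positivity)
  have hII : b * (k - (k - 1) * a) ≤ k * l * m := by
    have hf : 0 ≤ k - (k - 1) * a := by
      have f1 := mul_nonneg (sub_nonneg.2 hk) (sub_nonneg.2 ha1)
      nlinarith
    have e1 : k - (k - 1) * a ≤ k * (1 - a + z) := by nlinarith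
    have hlw : 0 ≤ l * w := by positivity
    calc b * (k - (k - 1) * a) ≤ (l * w) * (k - (k - 1) * a) := mul_le_mul_of_nonneg_right hb hf
      _ ≤ (l * w) * (k * (1 - a + z)) := mul_le_mul_of_nonneg_left e1 hlw
      _ = (k * l) * (w * (1 - a + z)) := by ring
      _ ≤ (k * l) * m := mul_le_mul_of_nonneg_left h2 (by positivity)
  rcases hm0.eq_or_lt with hm00 | hmpos
  · have hf : 1 ≤ l - (l - 1) * b := by
      nlinarith [mul_nonneg (by linarith : (0:ℝ) ≤ l - 1) (by linarith : (0:ℝ) ≤ 1 - b)]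
    rw [← hm00] at hI ⊢
    nlinarith
  by_contra hcon
  push Not at hcon
  set s : ℝ := 67 / 50 * k * m with hs
  -- the quadratic
  have hD : 1 ≤ k - (k - 1) * a := by
    nlinarith [mul_nonneg (by linarith : (0:ℝ) ≤ k - 1) (by linarith : (0:ℝ) ≤ 1 - a)]
  have hg : 0 ≤ (k - 1) * a ^ 2 - a * (k - (l - 1) * k * m + k * (k - 1) * m) + k ^ 2 * m := by
    set D : ℝ := k - (k - 1) * a with hDd
    have e1 : (a * (l - (l - 1) * b)) * D ≤ (k * l * m) * D :=
      mul_le_mul_of_nonneg_right hI (by linarith)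
    have e2 : (a * (l - 1)) * (b * D) ≤ (a * (l - 1)) * (k * l * m) :=
      mul_le_mul_of_nonneg_left hII (mul_nonneg ha0 (by linarith))
    have e3 : l * (a * D - (l - 1) * a * k * m) ≤ l * (k * m * D) := by nlinarith
    have e4 : a * D - (l - 1) * a * k * m ≤ k * m * D := le_of_mul_le_mul_left e3 hl0
    rw [hDd] at e4
    nlinarith
  have hg1 : k * l * m < 1 := by
    have e1 : 4 * (k * l) ≤ Q ^ 2 := by nlinarith [sq_nonneg (k - l)]
    nlinarith
  have hs0 : 0 < s := by rw [hs]; positivity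
  have hgs : (k - 1) * s ^ 2 - s * (k - (l - 1) * k * m + k * (k - 1) * m) + k ^ 2 * m < 0 := by
    have e1 : (k - 1) * s ^ 2 - s * (k - (l - 1) * k * m + k * (k - 1) * m) + k ^ 2 * m =
        (k ^ 2 * m) * ((67 / 50) ^ 2 * (k - 1) * m - 67 / 50 * (1 + (k - l) * m) + 1) := by
      rw [hs]; ring
    rw [e1]
    apply mul_neg_of_pos_of_neg (by positivity)
    have hQm : 143 * ((Q - 2) * m) ≤ 36 := by
      have f1 : 0 ≤ (Q - 11) * (9 * Q - 26) * m :=
        mul_nonneg (mul_nonneg (by linarith) (by linarith)) hm0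
      nlinarith
    have e2 : (l - k) * m ≤ (Q - 2 * k) * m := mul_le_mul_of_nonneg_right (by linarith) hm0
    have e3 : 0 ≤ (k - 1) * m := mul_nonneg (by linarith) hm0
    nlinarith
  have hconv : (1 - s) * ((k - 1) * a ^ 2 - a * (k - (l - 1) * k * m + k * (k - 1) * m) + k ^ 2 * m)
      = (1 - a) * ((k - 1) * s ^ 2 - s * (k - (l - 1) * k * m + k * (k - 1) * m) + k ^ 2 * m) +
        (a - s) * (k * l * m - 1) - (k - 1) * ((1 - a) * (a - s) * (1 - s)) := by ring
  have p1 : 0 < 1 - s := by linarith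
  have p2 : 0 ≤ (k - 1) * ((1 - a) * (a - s) * (1 - s)) :=
    mul_nonneg (by linarith) (mul_nonneg (mul_nonneg (by linarith) (by linarith)) p1.le)
  have p3 := mul_nonneg p1.le hg
  have p4 : (a - s) * (k * l * m - 1) < 0 := mul_neg_of_pos_of_neg (by linarith) (by linarith)
  have p5 : (1 - a) * ((k - 1) * s ^ 2 - s * (k - (l - 1) * k * m + k * (k - 1) * m) + k ^ 2 * m)
      ≤ 0 := mul_nonpos_of_nonneg_of_nonpos (by linarith) hgs.le
  linarith

theorem t_pure : S_pure := by
  intro Q m k l a b z w h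
  refine ⟨R1_side Q m k l a b z w h, R1_side Q m l k b a w z ?_⟩
  exact ⟨h.hQ, h.hm0, h.hm, h.hl, h.hk, by linarith [h.hkl], h.hb0, h.ha0, h.hb1, h.ha1, h.hw,
    h.hz, h.hb, h.ha, h.h2, h.h1⟩

end H825CD
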