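import Pool.Agent.H825R2.CD.Defs

/-! R2: there is a dominating common letter (helper9). -/

set_option autoImplicit false

namespace H825CD
open Finset

theorem t_dom (h : S_pure) : S_dom := by
  intro N C α β Q m k l a b z w hp hα hβ sα sβ hsplit
  obtain ⟨ha', hb'⟩ := h Q m k l a b z w hp
  have hQ := hp.hQ
  have hm0 := hp.hm0
  have hm := hp.hm
  have hz := hp.hz
  have hw := hp.hw
  have hk0 : 0 ≤ k := by rcases hp.hk with h | h <;> linarith
  have hl0 : 0 ≤ l := by rcases hp.hl with h | h <;> linarith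
  have hkl := hp.hkl
  have hQm0 : 0 ≤ Q * m := by positivity
  -- bounds
  have m1 : 143 * m ≤ 4 := by nlinarith
  have m2 : 13 * (Q * m) ≤ 4 := by nlinarith
  have m3 : (k + l) * m ≤ Q * m := mul_le_mul_of_nonneg_right hkl hm0
  have hab : a + b ≤ 4124 / 10000 := by nlinarith
  have ha0 := hp.ha0
  have hb0 := hp.hb0
  have hβn : ∀ P ⊆ C, 0 ≤ ∑ x ∈ P, β x := fun P hP => sum_nonneg fun x hx => hβ x (hP hx)
  have hαn : ∀ P ⊆ C, 0 ≤ ∑ x ∈ P, α x := fun P hP => sum_nonneg fun x hx => hα x (hP hx)
  have hCn : C.Nonempty := by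
    rw [nonempty_iff_ne_empty]
    rintro rfl
    rw [sum_empty] at sα
    linarith
  -- the median letter
  have hTn : (C.filter (fun t => 1 - a ≤ 2 * ∑ x ∈ C.filter (fun x => x ≤ t), α x)).Nonempty := by
    refine ⟨C.max' hCn, mem_filter.2 ⟨max'_mem _ _, ?_⟩⟩
    have : C.filter (fun x => x ≤ C.max' hCn) = C := filter_true_of_mem fun x hx => le_max' _ _ hx
    rw [this]
    linarith
  set t := (C.filter (fun t => 1 - a ≤ 2 * ∑ x ∈ C.filter (fun x => x ≤ t), α x)).min' hTn
    with ht
  have htm := min'_mem _ hTn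
  rw [← ht, mem_filter] at htm
  obtain ⟨htC, ht1⟩ := htm
  have ht0 : 2 * ∑ x ∈ C.filter (fun x => x < t), α x ≤ 1 - a := by
    rcases (C.filter (fun x => x < t)).eq_empty_or_nonempty with h0 | h0
    · rw [h0, sum_empty]
      linarith
    · have hs := max'_mem _ h0
      set s := (C.filter (fun x => x < t)).max' h0 with hsd
      rw [mem_filter] at hs
      have e1 : C.filter (fun x => x < t) = C.filter (fun x => x ≤ s) := by
        ext x
        rw [mem_filter, mem_filter]
        constructor
        · intro hx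
          exact ⟨hx.1, le_max' _ _ (mem_filter.2 hx)⟩
        · intro hx
          exact ⟨hx.1, lt_of_le_of_lt hx.2 hs.2⟩
      rw [e1]
      by_contra hcon
      push Not at hcon
      have h2 : s ∈ C.filter (fun t => 1 - a ≤ 2 * ∑ x ∈ C.filter (fun x => x ≤ t), α x) :=
        mem_filter.2 ⟨hs.1, hcon.le⟩
      have h3 := min'_le _ _ h2
      rw [← ht] at h3
      exact absurd hs.2 (not_lt.2 h3)
  -- splits
  have hP1 : C.filter (fun x => x ≤ t) ⊆ C := filter_subset _ _
  have hP0 : C.filter (fun x => x < t) ⊆ C := filter_subset _ _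
  have s1 := hsplit _ hP1
  have s2 := hsplit _ (sdiff_subset (s := C) (t := C.filter (fun x => x < t)))
  rw [Finset.sdiff_sdiff_eq_self hP0] at s2
  have n1 := hβn _ (sdiff_subset (s := C) (t := C.filter (fun x => x ≤ t)))
  have n0 := hβn _ hP0
  have d0 := sum_sdiff (f := α) hP0
  have s1' : (1 - a) / 2 * (∑ x ∈ C \ C.filter (fun x => x ≤ t), β x) ≤ m := by
    refine le_trans ?_ s1
    apply mul_le_mul
    · linarith
    · linarith
    · exact n1
    · linarith [hαn _ hP1]
  have s2' : (1 - a) / 2 * (∑ x ∈ C.filter (fun x => x < t), β x) ≤ m := by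
    refine le_trans ?_ s2
    apply mul_le_mul
    · linarith
    · linarith
    · exact n0
    · linarith [hαn _ (sdiff_subset (s := C) (t := C.filter (fun x => x < t)))]
  have hβt : ∑ x ∈ C.filter (fun x => x < t), β x + β t +
      ∑ x ∈ C \ C.filter (fun x => x ≤ t), β x = 1 - b := by
    have e2 : C.filter (fun x => x ≤ t) = insert t (C.filter (fun x => x < t)) := by
      ext x
      rw [mem_filter, mem_insert, mem_filter]
      constructor
      · rintro ⟨h1, h2⟩
        rcases h2.lt_or_eq with h3 | h3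
        · exact Or.inr ⟨h1, h3⟩
        · exact Or.inl h3
      · rintro (rfl | ⟨h1, h2⟩)
        · exact ⟨htC, le_rfl⟩
        · exact ⟨h1, h2.le⟩
    have e3 : t ∉ C.filter (fun x => x < t) := by
      intro h3
      exact absurd (mem_filter.1 h3).2 (lt_irrefl _)
    have d1 := sum_sdiff (f := β) hP1
    rw [e2, sum_insert e3] at d1
    rw [e2]
    linarith
  have y1 : β t ≥ 39 / 100 := by nlinarith
  -- the split without the letter
  have hts : ({t} : Finset (Fin N)) ⊆ C := singleton_subset_iff.2 htC
  have s3 := hsplit (C \ {t}) sdiff_subset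
  rw [Finset.sdiff_sdiff_eq_self hts, sum_singleton] at s3
  have s4 := hsplit {t} hts
  rw [sum_singleton] at s4
  have d2 := sum_sdiff (f := α) hts
  have d3 := sum_sdiff (f := β) hts
  rw [sum_singleton] at d2 d3
  have n3 := hαn _ (sdiff_subset (s := C) (t := {t}))
  have n4 := hβn _ (sdiff_subset (s := C) (t := {t}))
  have z1 : (∑ x ∈ C \ {t}, α x) * (39 / 100) ≤ m := by
    refine le_trans ?_ s3
    apply mul_le_mul
    · linarith
    · linarith
    · norm_num
    · linarith
  have hαt : 1 / 2 ≤ α t := by linarith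
  have z2 : 1 / 2 * (∑ x ∈ C \ {t}, β x) ≤ m := by
    refine le_trans ?_ s4
    apply mul_le_mul
    · linarith
    · linarith
    · exact n4
    · linarith
  exact ⟨t, htC, hαt, by linarith⟩

end H825CD
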