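import Pool.Agent.H825R2.CD.Defs

namespace H825CD
open Finset

theorem R3_claim (h : S_pure) (Q m k l a b z w : ℝ) (hP : Pure Q m k l a b z w)
    (at' bt x y N' : ℝ) (hx : 0 ≤ x) (hy : 0 ≤ y) (hA : at' + x + a = 1) (hB : bt + y + b = 1)
    (A1 : (at' + z) * (y + w) ≤ m) (A2 : (x + z) * (bt + w) ≤ m)
    (hN : k + l ≤ N' - 1) (hNQ : N' ≤ Q) (hN2 : 2 ≤ N') :
    at' * y + x * bt + a * (1 - b) + b * (1 - a) + a * b ≤ N' * m := by
  obtain ⟨pa, pb⟩ := h Q m k l a b z w hP
  obtain ⟨hQ, hm0, hm, hk, hl, hkl, ha0, hb0, ha1, hb1, hz, hw, ha, hb, h1, h2⟩ := hP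
  have S : at' * y + x * bt ≤ 2 * m - w * (1 - a) - z * (1 - b) - 2 * (z * w) := by
    have e1 : at' + x = 1 - a := by linarith
    have e2 : bt + y = 1 - b := by linarith
    have e3 : w * (1 - a) = w * at' + w * x := by rw [← e1]; ring
    have e4 : z * (1 - b) = z * bt + z * y := by rw [← e2]; ring
    rw [e3, e4]
    nlinarith [A1, A2]
  have hzw : 0 ≤ z * w := mul_nonneg hz hw
  have hwa : 0 ≤ w * (1 - a) := mul_nonneg hw (by linarith)
  have hzb : 0 ≤ z * (1 - b) := mul_nonneg hz (by linarith)
  have g1 : z * (1 - b) ≤ m - z * w := by nlinarith [h1]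
  have g2 : w * (1 - a) ≤ m - z * w := by nlinarith [h2]
  rcases hk with hk | hk
  · -- `k = 0`
    subst hk
    have ha' : a = 0 := by nlinarith
    subst ha'
    rcases hl with hl | hl
    · subst hl
      have hb' : b = 0 := by nlinarith
      subst hb'
      nlinarith [S, mul_le_mul_of_nonneg_right hN2 hm0]
    · have hwm : w ≤ m := by nlinarith [h2]
      have e : (l - 1) * w ≤ (l - 1) * m := mul_le_mul_of_nonneg_left hwm (by linarith)
      have e2 : (l + 1) * m ≤ N' * m := mul_le_mul_of_nonneg_right (by linarith) hm0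
      nlinarith [S]
  · rcases hl with hl | hl
    · subst hl
      have hb' : b = 0 := by nlinarith
      subst hb'
      have hzm : z ≤ m := by nlinarith [h1]
      have e : (k - 1) * z ≤ (k - 1) * m := mul_le_mul_of_nonneg_left hzm (by linarith)
      have e2 : (k + 1) * m ≤ N' * m := mul_le_mul_of_nonneg_right (by linarith) hm0
      nlinarith [S]
    · -- main case
      have t1 : a * (1 - b) ≤ k * (z * (1 - b)) := by
        have := mul_le_mul_of_nonneg_right ha (show (0 : ℝ) ≤ 1 - b by linarith)
        linarith [this, mul_assoc k z (1 - b)]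
      have t2 : b * (1 - a) ≤ l * (w * (1 - a)) := by
        have := mul_le_mul_of_nonneg_right hb (show (0 : ℝ) ≤ 1 - a by linarith)
        linarith [this, mul_assoc l w (1 - a)]
      have t3 : a * b ≤ (k * l) * (z * w) := by
        have := mul_le_mul ha hb hb0 (by positivity)
        nlinarith [this]
      have u1 : (k - 1) * (z * (1 - b)) ≤ (k - 1) * (m - z * w) :=
        mul_le_mul_of_nonneg_left g1 (by linarith)
      have u2 : (l - 1) * (w * (1 - a)) ≤ (l - 1) * (m - z * w) :=
        mul_le_mul_of_nonneg_left g2 (by linarith)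
      have main : at' * y + x * bt + a * (1 - b) + b * (1 - a) + a * b
          ≤ (k + l) * m + (k * l - k - l) * (z * w) := by
        nlinarith [S, t1, t2, t3, u1, u2]
      have key : (k * l - k - l) * (z * w) ≤ m := by
        rcases le_or_gt (k * l - k - l) 0 with hneg | hpos
        · nlinarith [mul_nonneg (neg_nonneg.2 hneg) hzw]
        · -- `a + b < 1`
          have hs : k + l ≤ Q - 1 := by linarith
          have hab : a + b ≤ 67 / 50 * Q * m := by
            have : (k + l) * m ≤ Q * m := mul_le_mul_of_nonneg_right (by linarith) hm0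
            nlinarith [pa, pb]
          have hkl4 : 4 * (k * l - k - l) ≤ (Q - 1) * (Q - 5) := by
            have q1 : 4 * (k * l) ≤ (k + l) ^ 2 := by nlinarith [sq_nonneg (k - l)]
            have q2 : (k + l) ^ 2 - 4 * (k + l) ≤ (Q - 1) ^ 2 - 4 * (Q - 1) := by
              nlinarith [mul_nonneg (show (0 : ℝ) ≤ (Q - 1) - (k + l) by linarith)
                (show (0 : ℝ) ≤ (Q - 1) + (k + l) - 4 by linarith)]
            nlinarith [q1, q2]
          have hsum : (k * l - k - l) * m + (a + b) ≤ 1 := by
            have r1 : 4 * ((k * l - k - l) * m) ≤ (Q - 1) * (Q - 5) * m := by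
              have := mul_le_mul_of_nonneg_right hkl4 hm0
              linarith [this]
            have r2 : (Q - 1) * (Q - 5) * m + 4 * (67 / 50 * Q * m) ≤ Q * (Q + 2) * m := by
              have : 0 ≤ (Q * (Q + 2) - ((Q - 1) * (Q - 5) + 4 * (67 / 50 * Q))) * m :=
                mul_nonneg (by nlinarith) hm0
              linarith [this]
            linarith
          have hab1 : a + b < 1 := by
            have r : Q * (Q + 2) * m ≤ 4 := hm
            have r3 : 13 * (Q * m) ≤ 4 := by
              have : 0 ≤ (Q + 2 - 13) * (Q * m) := mul_nonneg (by linarith) (by positivity)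
              nlinarith [this]
            nlinarith [hab]
          have v1 : z * (1 - b) ≤ m := by linarith
          have v2 : w * (1 - a) ≤ m := by linarith
          have v3 : (z * (1 - b)) * (w * (1 - a)) ≤ m * m := mul_le_mul v1 v2 hwa hm0
          have v4 : (z * w) * (1 - a - b) ≤ m * m := by
            nlinarith [v3, mul_nonneg hzw (mul_nonneg ha0 hb0)]
          have v5 : (k * l - k - l) * ((z * w) * (1 - a - b)) ≤ (k * l - k - l) * (m * m) :=
            mul_le_mul_of_nonneg_left v4 hpos.le
          have v6 : (k * l - k - l) * (m * m) ≤ m * (1 - a - b) := by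
            have : (k * l - k - l) * m ≤ 1 - a - b := by linarith
            have := mul_le_mul_of_nonneg_left this hm0
            linarith [this]
          have v7 : ((k * l - k - l) * (z * w)) * (1 - a - b) ≤ m * (1 - a - b) := by
            linarith [v5, v6]
          exact le_of_mul_le_mul_right v7 (by linarith)
      have fin : (k + l + 1) * m ≤ N' * m := mul_le_mul_of_nonneg_right (by linarith) hm0
      linarith [main, key, fin]

theorem t_nc (h : S_pure) : S_nc := by
  intro N C α β Q m k l a b z w hP hα hβ hsα hsβ hsplit hC2 hC ⟨t, htC, hαt, hβt⟩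
  have hQ := hP.hQ
  have hm0 := hP.hm0
  have hm := hP.hm
  have hz := hP.hz
  have hw := hP.hw
  have ha0 := hP.ha0
  have hb0 := hP.hb0
  set x : ℝ := ∑ i ∈ C \ {t}, α i with hxdef
  set y : ℝ := ∑ i ∈ C \ {t}, β i with hydef
  have hx : 0 ≤ x := Finset.sum_nonneg fun i hi => hα i (Finset.mem_sdiff.1 hi).1
  have hy : 0 ≤ y := Finset.sum_nonneg fun i hi => hβ i (Finset.mem_sdiff.1 hi).1
  have htsub : {t} ⊆ C := by simpa using htC
  have sα : ∑ i ∈ C, α i = x + α t := by
    rw [← Finset.sum_sdiff htsub]
    simp [hxdef]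
  have sβ : ∑ i ∈ C, β i = y + β t := by
    rw [← Finset.sum_sdiff htsub]
    simp [hydef]
  have A1 : (α t + z) * (y + w) ≤ m := by
    have := hsplit {t} htsub
    simpa [hydef] using this
  have A2 : (x + z) * (β t + w) ≤ m := by
    have := hsplit (C \ {t}) Finset.sdiff_subset
    rw [Finset.sdiff_sdiff_eq_self htsub] at this
    simpa [hxdef] using this
  have hA : α t + x + a = 1 := by linarith
  have hB : β t + y + b = 1 := by linarith
  have hexp : 1 - α t * β t = α t * y + x * β t + a * (1 - b) + b * (1 - a) + a * b + x * y := by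
    have e1 : α t = 1 - x - a := by linarith
    have e2 : β t = 1 - y - b := by linarith
    rw [e1, e2]
    ring
  have sprod : ∑ i ∈ C, α i * β i = (∑ i ∈ C \ {t}, α i * β i) + α t * β t := by
    rw [← Finset.sum_sdiff htsub]
    simp
  rcases Nat.lt_or_ge 2 C.card with h3 | h2
  · -- at least three common letters
    have h3' : (3 : ℝ) ≤ C.card := by exact_mod_cast h3
    have T := R3_claim h Q m k l a b z w hP (α t) (β t) x y (Q - 1) hx hy hA hB A1 A2
      (by linarith) (by linarith) (by linarith)
    have hrest : 0 ≤ ∑ i ∈ C \ {t}, α i * β i :=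
      Finset.sum_nonneg fun i hi => mul_nonneg (hα i (Finset.mem_sdiff.1 hi).1)
        (hβ i (Finset.mem_sdiff.1 hi).1)
    have hy2 : y ≤ 2 * m := by
      nlinarith [A1, mul_nonneg (show (0 : ℝ) ≤ α t - 1 / 2 by linarith) hy,
        mul_nonneg (show (0 : ℝ) ≤ α t + z by linarith) hw, mul_nonneg hz hy]
    have hx2 : x ≤ 2 * m := by
      nlinarith [A2, mul_nonneg (show (0 : ℝ) ≤ β t - 1 / 2 by linarith) hx,
        mul_nonneg (show (0 : ℝ) ≤ x + z by linarith) hw,
        mul_nonneg hz (show (0 : ℝ) ≤ β t by linarith)]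
    have hxy : x * y ≤ m := by
      have q : x * y ≤ (2 * m) * (2 * m) := mul_le_mul hx2 hy2 hy (by linarith)
      have q2 : 143 * m ≤ 4 := by
        have : 0 ≤ (Q * (Q + 2) - 143) * m := mul_nonneg (by nlinarith) hm0
        linarith
      nlinarith [q, mul_nonneg hm0 (show (0 : ℝ) ≤ 4 - 143 * m by linarith)]
    rw [sprod]
    nlinarith [T, hrest, hxy, hexp]
  · -- exactly two
    have hc2 : C.card = 2 := le_antisymm h2 hC2
    have hc2' : (C.card : ℝ) = 2 := by exact_mod_cast hc2
    have T := R3_claim h Q m k l a b z w hP (α t) (β t) x y Q hx hy hA hB A1 A2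
      (by linarith) le_rfl (by linarith)
    have hone : (C \ {t}).card = 1 := by
      rw [Finset.card_sdiff_of_subset htsub, hc2]
      simp
    obtain ⟨s, hs⟩ := Finset.card_eq_one.1 hone
    have ex : x = α s := by rw [hxdef, hs]; simp
    have ey : y = β s := by rw [hydef, hs]; simp
    have ep : ∑ i ∈ C \ {t}, α i * β i = x * y := by rw [hs, ex, ey]; simp
    rw [sprod, ep]
    linarith [T, hexp]

end H825CD
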