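import Pool.Agent.H825R2.CD.Defs

namespace H825CD

open Finset

theorem t_gain : S_gain := by
  intro Q k l a b z w hk hl hkl ha hb ha1 hb1 haz hbw h1 h2
  have hk0 : 0 < k := by linarith
  have hl0 : 0 < l := by linarith
  have hlG : k * b ≤ l * (Q * w - b) := by
    have e1 : Q * b ≤ Q * (l * w) := mul_le_mul_of_nonneg_left hbw (by linarith)
    have e2 : k * b ≤ (Q - l) * b := mul_le_mul_of_nonneg_right (by linarith) hb.le
    nlinarith
  have hkH : l * a ≤ k * (Q * z - a) := by
    have e1 : Q * a ≤ Q * (k * z) := mul_le_mul_of_nonneg_left haz (by linarith)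
    have e2 : l * a ≤ (Q - k) * a := mul_le_mul_of_nonneg_right (by linarith) ha.le
    nlinarith
  set G : ℝ := Q * w - b with hG
  set H : ℝ := Q * z - a with hH
  have hG0 : 0 < G := by
    have : 0 < l * G := lt_of_lt_of_le (by positivity) hlG
    exact (pos_iff_pos_of_mul_pos this).1 hl0
  have hH0 : 0 < H := by
    have : 0 < k * H := lt_of_lt_of_le (by positivity) hkH
    exact (pos_iff_pos_of_mul_pos this).1 hk0
  have hGH : a * b ≤ G * H := by
    have e1 : (k * b) * (l * a) ≤ (l * G) * (k * H) :=
      mul_le_mul hlG hkH (by positivity) (by positivity)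
    have e2 : (k * l) * (a * b) ≤ (k * l) * (G * H) := by nlinarith
    exact le_of_mul_le_mul_left e2 (by positivity)
  have h1' : G * (1 - a) ≤ a := by nlinarith
  have h2' : H * (1 - b) ≤ b := by nlinarith
  have hGl : a * (1 - b) ≤ G := by
    have e1 : G * (H * (1 - b)) ≤ G * b := mul_le_mul_of_nonneg_left h2' hG0.le
    have e2 : (a * b) * (1 - b) ≤ (G * H) * (1 - b) :=
      mul_le_mul_of_nonneg_right hGH (by linarith)
    have e3 : (a * (1 - b)) * b ≤ G * b := by nlinarith
    exact le_of_mul_le_mul_right e3 hb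
  have hHl : b * (1 - a) ≤ H := by
    have e1 : H * (G * (1 - a)) ≤ H * a := mul_le_mul_of_nonneg_left h1' hH0.le
    have e2 : (a * b) * (1 - a) ≤ (G * H) * (1 - a) :=
      mul_le_mul_of_nonneg_right hGH (by linarith)
    have e3 : (b * (1 - a)) * a ≤ H * a := by nlinarith
    exact le_of_mul_le_mul_right e3 ha
  constructor
  · have : Q * w = G + b := by rw [hG]; ring
    rw [this]; nlinarith
  · have : Q * z = H + a := by rw [hH]; ring
    rw [this]; nlinarith

end H825CD
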