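import Pool.Agent.H825R2.CD.Defs

namespace H825CD

open Finset

/-- the sum of the pure fractions is at most `0.38` -/
theorem R5_sig {Q qq m k l a b z w : ℝ} (hQ : 11 ≤ Q) (hqq : Q * (Q + 2) ≤ 4 * qq)
    (hm : qq * m ≤ 1) (hm0 : 0 < m) (hk : 1 ≤ k) (hl : 1 ≤ l) (hkl : k + l ≤ Q)
    (ha0 : 0 < a) (_hb0 : 0 < b) (ha2 : a ≤ 1 / 2) (hb2 : b ≤ 1 / 2) (ha : a ≤ k * z)
    (hb : b ≤ l * w) (h1 : z * (1 - b) ≤ m) (h2 : w * (1 - a) ≤ m) : a + b ≤ 38 / 100 := by
  have e1 : a * (1 - b) ≤ k * m := by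
    calc a * (1 - b) ≤ (k * z) * (1 - b) := mul_le_mul_of_nonneg_right ha (by linarith)
      _ = k * (z * (1 - b)) := by ring
      _ ≤ k * m := mul_le_mul_of_nonneg_left h1 (by linarith)
  have e2 : b * (1 - a) ≤ l * m := by
    calc b * (1 - a) ≤ (l * w) * (1 - a) := mul_le_mul_of_nonneg_right hb (by linarith)
      _ = l * (w * (1 - a)) := by ring
      _ ≤ l * m := mul_le_mul_of_nonneg_left h2 (by linarith)
  have e3 : (k + l) * m ≤ Q * m := mul_le_mul_of_nonneg_right hkl hm0.le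
  have e4 : Q * (Q + 2) * m ≤ 4 := by
    have := mul_le_mul_of_nonneg_right hqq hm0.le
    nlinarith
  have e5 : 13 * (Q * m) ≤ 4 := by
    have f1 : 13 * (Q * m) ≤ (Q + 2) * (Q * m) :=
      mul_le_mul_of_nonneg_right (by linarith) (by positivity)
    nlinarith
  by_contra hcon
  push Not at hcon
  have e6 : a + b - 2 * (a * b) ≤ 4 / 13 := by nlinarith
  have e7 : 4 * (a * b) ≤ (a + b) ^ 2 := by nlinarith [sq_nonneg (a - b)]
  nlinarith

/-- the loss term -/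
theorem R5_loss {Q qq m c1 c2 α β : ℝ} (hQ : 11 ≤ Q) (hqq : Q * (Q + 2) ≤ 4 * qq)
    (hm0 : 0 < m) (hα0 : 0 ≤ α) (hβ0 : 0 ≤ β) (hα : qq * α ≤ m) (hβ : qq * β ≤ m)
    (h12 : c1 + c2 ≤ 2 * Q ^ 2) (h1 : c1 ≤ 3 * Q ^ 2 - 4 * Q) (h2 : c2 ≤ 3 * Q ^ 2 - 4 * Q) :
    (c1 * α + c2 * β) / 2 ≤ 41 / 100 * (Q * m) := by
  have hqq0 : 0 < qq := by
    have f1 : 0 < Q * (Q + 2) := by positivity
    linarith
  have hpos : 0 ≤ 41 / 100 * (Q * m) := by positivity
  -- the two bounds for the target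
  have t1 : Q ^ 2 * m ≤ qq * (41 / 100 * (Q * m)) := by
    have f1 : Q * (Q + 2) * (41 / 100 * (Q * m)) ≤ 4 * qq * (41 / 100 * (Q * m)) :=
      mul_le_mul_of_nonneg_right hqq hpos
    have f2 : 0 ≤ (Q - 11) * (Q * (Q * m)) := mul_nonneg (by linarith) (by positivity)
    have f3 : 0 ≤ Q * (Q * m) := by positivity
    nlinarith
  have t2 : (3 * Q ^ 2 - 4 * Q) * m / 2 ≤ qq * (41 / 100 * (Q * m)) := by
    have f1 : Q * (Q + 2) * (41 / 100 * (Q * m)) ≤ 4 * qq * (41 / 100 * (Q * m)) :=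
      mul_le_mul_of_nonneg_right hqq hpos
    have f2 : 6 * Q - 8 ≤ 41 / 100 * (Q * (Q + 2)) := by nlinarith
    have f3 : (6 * Q - 8) * (Q * m) ≤ 41 / 100 * (Q * (Q + 2)) * (Q * m) :=
      mul_le_mul_of_nonneg_right f2 (by positivity)
    nlinarith
  have hcm : ∀ c x : ℝ, 0 ≤ x → qq * x ≤ m → 0 ≤ c → qq * (c * x) ≤ c * m := by
    intro c x _ hx hc
    calc qq * (c * x) = c * (qq * x) := by ring
      _ ≤ c * m := mul_le_mul_of_nonneg_left hx hc
  have hcn : ∀ c x : ℝ, 0 ≤ x → c ≤ 0 → qq * (c * x) ≤ 0 := by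
    intro c x hx hc
    have : c * x ≤ 0 := mul_nonpos_of_nonpos_of_nonneg hc hx
    exact mul_nonpos_of_nonneg_of_nonpos hqq0.le this
  have key : qq * ((c1 * α + c2 * β) / 2) ≤ qq * (41 / 100 * (Q * m)) := by
    have e0 : qq * ((c1 * α + c2 * β) / 2) = (qq * (c1 * α) + qq * (c2 * β)) / 2 := by ring
    rw [e0]
    rcases le_total 0 c1 with hc1 | hc1 <;> rcases le_total 0 c2 with hc2 | hc2
    · have g1 := hcm c1 α hα0 hα hc1
      have g2 := hcm c2 β hβ0 hβ hc2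
      have g3 : (c1 + c2) * m ≤ 2 * Q ^ 2 * m := mul_le_mul_of_nonneg_right h12 hm0.le
      linarith
    · have g1 := hcm c1 α hα0 hα hc1
      have g2 := hcn c2 β hβ0 hc2
      have g3 : c1 * m ≤ (3 * Q ^ 2 - 4 * Q) * m := mul_le_mul_of_nonneg_right h1 hm0.le
      linarith
    · have g1 := hcn c1 α hα0 hc1
      have g2 := hcm c2 β hβ0 hβ hc2
      have g3 : c2 * m ≤ (3 * Q ^ 2 - 4 * Q) * m := mul_le_mul_of_nonneg_right h2 hm0.le
      linarith
    · have g1 := hcn c1 α hα0 hc1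
      have g2 := hcn c2 β hβ0 hc2
      have g3 : 0 ≤ Q ^ 2 * m := by positivity
      linarith
  exact le_of_mul_le_mul_left key hqq0

/-- the final numerical contradiction -/
theorem R5_num {x y sx sy : ℝ} (_hx0 : 0 < x) (hy0 : 0 < y) (hx : x ≤ 38 / 100)
    (hy : y ≤ 38 / 100) (hsx0 : 0 < sx) (hsx : sx ≤ x) (hsy : 905 / 1000 * y ≤ sy)
    (h : (1 - x - y) * (sx + sy) < 41 / 100 * sx) : False := by
  have hsy0 : 0 < sy := by linarith
  have e1 : (1 - x - y) * (sx + sy) - 41 / 100 * sx = sx * (59 / 100 - x - y) + sy * (1 - x - y) := by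
    ring
  have e2 : sx * (59 / 100 - x - y) + sy * (1 - x - y) < 0 := by linarith
  have e3 : 905 / 1000 * y * (1 - x - y) ≤ sy * (1 - x - y) :=
    mul_le_mul_of_nonneg_right hsy (by linarith)
  rcases le_total (x + y) (59 / 100) with h1 | h1
  · have f1 : 0 ≤ sx * (59 / 100 - x - y) := mul_nonneg hsx0.le (by linarith)
    have f2 : 0 < sy * (1 - x - y) := mul_pos hsy0 (by linarith)
    linarith
  · have f1 : x * (59 / 100 - x - y) ≤ sx * (59 / 100 - x - y) := by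
      have : 0 ≤ (x - sx) * (x + y - 59 / 100) := mul_nonneg (by linarith) (by linarith)
      nlinarith
    have f2 : x * (59 / 100 - x - y) + 905 / 1000 * y * (1 - x - y) < 0 := by linarith
    have f3 : 0 ≤ (38 / 100 - x) * (x + y - 59 / 100) := mul_nonneg (by linarith) (by linarith)
    have f4 : 0 ≤ (38 / 100 - x) * (38 / 100 - y) := mul_nonneg (by linarith) (by linarith)
    have f5 : 0 ≤ (38 / 100 - y) * (x + y - 59 / 100) := mul_nonneg (by linarith) (by linarith)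
    nlinarith

theorem t_final : S_final := by
  intro Q qq m k l K L aj bj zj wj ai bi zi wi p r Z10 Z01 Z11 W10 W01 W11 h hZ10 hZ01 hZ11 hW10
    hW01 hW11 hP hR hzj' hzi' hwj' hwi' hpW hrZ
  obtain ⟨hQ, hqq, hm, hm0, hk, hl, hkl, hK, hL, hKL, haj0, hbj0, hai0, hbi0, haj2, hbj2, hai2,
    hbi2, haj, hbj, hai, hbi, hJ1, hJ2, hJ3, hI1, hI2, hp, hr', hgj1, hgj2, hgi1, hgi2⟩ := h
  have hzj : 0 < zj := by
    have : 0 < k * zj := lt_of_lt_of_le haj0 haj
    exact (pos_iff_pos_of_mul_pos this).1 (by linarith)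
  have hwj : 0 < wj := by
    have : 0 < l * wj := lt_of_lt_of_le hbj0 hbj
    exact (pos_iff_pos_of_mul_pos this).1 (by linarith)
  have hzw := mul_pos hzj hwj
  have hJ1' : zj * (1 - bj) ≤ m := by
    have g : zj * (1 - bj + wj) = zj * (1 - bj) + zj * wj := by ring
    linarith
  have hJ2' : wj * (1 - aj) ≤ m := by
    have g : wj * (1 - aj + zj) = wj * (1 - aj) + zj * wj := by ring
    linarith
  have sj := R5_sig hQ hqq hm hm0 hk hl hkl haj0 hbj0 haj2 hbj2 haj hbj hJ1' hJ2'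
  have si := R5_sig hQ hqq hm hm0 hK hL hKL hai0 hbi0 hai2 hbi2 hai hbi hI1 hI2
  have hp0 : 0 < p := by linarith
  have hr0 : 0 < r := by linarith
  set SJ : ℝ := aj + bj - aj * bj with hSJ
  set SI : ℝ := ai + bi - ai * bi with hSI
  have hSJ0 : 0 < SJ := lt_trans (by positivity) hJ3
  have hSJ1 : SJ ≤ aj + bj := by
    have := mul_pos haj0 hbj0
    rw [hSJ]
    linarith
  have hSI1 : 905 / 1000 * (ai + bi) ≤ SI := by
    have f1 : 4 * (ai * bi) ≤ (ai + bi) * (ai + bi) := by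
      have := sq_nonneg (ai - bi)
      have f0 : (ai + bi) * (ai + bi) - 4 * (ai * bi) = (ai - bi) ^ 2 := by ring
      linarith
    have f2 : (ai + bi) * (ai + bi) ≤ 38 / 100 * (ai + bi) :=
      mul_le_mul_of_nonneg_right si (by linarith)
    rw [hSI]
    linarith
  have hSI0 : 0 < SI := by linarith
  -- step 2
  have e1 : p * (r + 2 * (SJ + SI)) ≤ 1 + (2 * Q * (L + l) - Q ^ 2) * (p * W11) := by
    have f1 : wj + wi ≤ W10 + W01 + (L + l) * W11 := by linarith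
    have f2 : SJ + SI ≤ Q * (W10 + W01) + Q * (L + l) * W11 := by
      have := mul_le_mul_of_nonneg_left f1 (by linarith : (0:ℝ) ≤ Q)
      linarith
    have f3 : p * (r + 2 * (SJ + SI)) ≤ p * (r + 2 * (Q * (W10 + W01) + Q * (L + l) * W11)) :=
      mul_le_mul_of_nonneg_left (by linarith) hp0.le
    have f4 : p * (r + 2 * (Q * (W10 + W01) + Q * (L + l) * W11)) =
        p * (r + 2 * Q * (W10 + W01) + Q ^ 2 * W11) + (2 * Q * (L + l) - Q ^ 2) * (p * W11) := by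
      ring
    linarith
  have e2 : r * (p + 2 * (SJ + SI)) ≤ 1 + (2 * Q * (K + k) - Q ^ 2) * (r * Z11) := by
    have f1 : zj + zi ≤ Z10 + Z01 + (K + k) * Z11 := by linarith
    have f2 : SJ + SI ≤ Q * (Z10 + Z01) + Q * (K + k) * Z11 := by
      have := mul_le_mul_of_nonneg_left f1 (by linarith : (0:ℝ) ≤ Q)
      linarith
    have f3 : r * (p + 2 * (SJ + SI)) ≤ r * (p + 2 * (Q * (Z10 + Z01) + Q * (K + k) * Z11)) :=
      mul_le_mul_of_nonneg_left (by linarith) hr0.le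
    have f4 : r * (p + 2 * (Q * (Z10 + Z01) + Q * (K + k) * Z11)) =
        r * (p + 2 * Q * (Z10 + Z01) + Q ^ 2 * Z11) + (2 * Q * (K + k) - Q ^ 2) * (r * Z11) := by
      ring
    linarith
  -- step 3
  have hQ2 : 0 ≤ 2 * Q := by linarith
  have hc12 : (2 * Q * (L + l) - Q ^ 2) + (2 * Q * (K + k) - Q ^ 2) ≤ 2 * Q ^ 2 := by
    have g := mul_le_mul_of_nonneg_left (by linarith : L + l + (K + k) ≤ 2 * Q) hQ2
    have g' : 2 * Q * (2 * Q) = 4 * Q ^ 2 := by ring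
    rw [g'] at g
    linarith
  have hc1 : 2 * Q * (L + l) - Q ^ 2 ≤ 3 * Q ^ 2 - 4 * Q := by
    have g := mul_le_mul_of_nonneg_left (by linarith : L + l ≤ 2 * Q - 2) hQ2
    have g' : 2 * Q * (2 * Q - 2) = 4 * Q ^ 2 - 4 * Q := by ring
    rw [g'] at g
    linarith
  have hc2 : 2 * Q * (K + k) - Q ^ 2 ≤ 3 * Q ^ 2 - 4 * Q := by
    have g := mul_le_mul_of_nonneg_left (by linarith : K + k ≤ 2 * Q - 2) hQ2
    have g' : 2 * Q * (2 * Q - 2) = 4 * Q ^ 2 - 4 * Q := by ring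
    rw [g'] at g
    linarith
  have hloss := R5_loss (c1 := 2 * Q * (L + l) - Q ^ 2) (c2 := 2 * Q * (K + k) - Q ^ 2)
    (α := p * W11) (β := r * Z11) hQ hqq hm0 (by positivity) (by positivity) hpW hrZ
    hc12 hc1 hc2
  -- step 4
  have e3 : p * r + (p + r) * (SJ + SI) ≤ 1 + 41 / 100 * (Q * m) := by
    have g : p * r + (p + r) * (SJ + SI) =
      (p * (r + 2 * (SJ + SI)) + r * (p + 2 * (SJ + SI))) / 2 := by ring
    rw [g]
    linarith
  set u : ℝ := aj + ai with hu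
  set v : ℝ := bj + bi with hv
  have hu1 : 1 - u ≤ p := by linarith
  have hv1 : 1 - v ≤ r := by linarith
  have hu0 : 0 < 1 - u := by linarith
  have hv0 : 0 < 1 - v := by linarith
  have e4 : (1 - u) * (1 - v) + ((1 - u) + (1 - v)) * (SJ + SI) ≤ p * r + (p + r) * (SJ + SI) := by
    have g1 : (1 - u) * (1 - v) ≤ p * r := mul_le_mul hu1 hv1 hv0.le hp0.le
    have g2 : ((1 - u) + (1 - v)) * (SJ + SI) ≤ (p + r) * (SJ + SI) :=
      mul_le_mul_of_nonneg_right (by linarith) (by linarith)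
    linarith
  have e5 : (1 - (aj + bj) - (ai + bi)) * (SJ + SI) + 1 ≤
      (1 - u) * (1 - v) + ((1 - u) + (1 - v)) * (SJ + SI) := by
    have g1 : (1 - u) * (1 - v) + ((1 - u) + (1 - v)) * (SJ + SI) -
        ((1 - (aj + bj) - (ai + bi)) * (SJ + SI) + 1) = aj * bi + ai * bj := by
      rw [hu, hv, hSJ, hSI]; ring
    have g2 : 0 ≤ aj * bi + ai * bj := by positivity
    linarith
  have e6 : (1 - (aj + bj) - (ai + bi)) * (SJ + SI) < 41 / 100 * SJ := by linarith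
  exact R5_num (by linarith) (by linarith) sj si hSJ0 hSJ1 hSI1 e6

end H825CD
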