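import Pool.Agent.H825R2.CD.Defs

namespace H825CD

open Finset

/-- the sum of the pure fractions is at most `0.38` -/
theorem R6_sig {Q qq m k l a b z w : ℝ} (hQ : 11 ≤ Q) (hqq : Q * (Q + 2) ≤ 4 * qq)
    (hm : qq * m ≤ 1) (hm0 : 0 < m) (hk : 1 ≤ k) (hl : 1 ≤ l) (hkl : k + l ≤ Q)
    (ha0 : 0 < a) (_hb0 : 0 < b) (ha2 : a ≤ 1 / 2) (hb2 : b ≤ 1 / 2) (ha : a ≤ k * z)
    (hb : b ≤ l * w) (h1 : z * (1 - b) ≤ m) (h2 : w * (1 - a) ≤ m) : a + b ≤ 38 / 100 := by
  have e1 : a * (1 - b) ≤ k * m := by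
    calc a * (1 - b) ≤ (k * z) * (1 - b) := mul_le_mul_of_nonneg_right ha (by linarith)
      _ = k * (z * (1 - b)) := by ring
      _ ≤ k * m := mul_le_mul_of_nonneg_left h1 (by linarith)
  have e2 : b * (1 - a) ≤ l * m := by
    calc b * (1 - a) ≤ (l * w) * (1 - a) := mul_le_mul_of_nonneg_right hb (by linarith)
      _ = l * (w * (1 - a)) := by ring
      _ ≤ l * m := mul_le_mul_of_nonneg_left h2 (by linarith)
  have e3 : (k + l) * m ≤ Q * m := mul_le_mul_of_nonneg_right hkl hm0.le
  have e4 : Q * (Q + 2) * m ≤ 4 := by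
    have := mul_le_mul_of_nonneg_right hqq hm0.le
    nlinarith
  have e5 : 13 * (Q * m) ≤ 4 := by
    have f1 : 13 * (Q * m) ≤ (Q + 2) * (Q * m) :=
      mul_le_mul_of_nonneg_right (by linarith) (by positivity)
    nlinarith
  by_contra hcon
  push Not at hcon
  have e6 : a + b - 2 * (a * b) ≤ 4 / 13 := by nlinarith
  have e7 : 4 * (a * b) ≤ (a + b) ^ 2 := by nlinarith [sq_nonneg (a - b)]
  nlinarith

theorem t_twin : S_twin := by
  intro Q qq m k l K L aj bj zj wj ai bi zi wi p r Z11 h hZ hz hr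
  obtain ⟨hQ, hqq, hm, hm0, hk, hl, hkl, hK, hL, hKL, haj0, hbj0, hai0, hbi0, haj2, hbj2, hai2,
    hbi2, haj, hbj, hai, hbi, hJ1, hJ2, hJ3, hI1, hI2, hp, hr', hgj1, hgj2, hgi1, hgi2⟩ := h
  have hzj : 0 < zj := by
    have : 0 < k * zj := lt_of_lt_of_le haj0 haj
    exact (pos_iff_pos_of_mul_pos this).1 (by linarith)
  have hwj : 0 < wj := by
    have : 0 < l * wj := lt_of_lt_of_le hbj0 hbj
    exact (pos_iff_pos_of_mul_pos this).1 (by linarith)
  have hwi : 0 < wi := by
    have : 0 < L * wi := lt_of_lt_of_le hbi0 hbi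
    exact (pos_iff_pos_of_mul_pos this).1 (by linarith)
  have hJ1' : zj * (1 - bj) ≤ m := by nlinarith [mul_pos hzj hwj]
  have hJ2' : wj * (1 - aj) ≤ m := by nlinarith [mul_pos hzj hwj]
  have sj := R6_sig hQ hqq hm hm0 hk hl hkl haj0 hbj0 haj2 hbj2 haj hbj hJ1' hJ2'
  have si := R6_sig hQ hqq hm hm0 hK hL hKL hai0 hbi0 hai2 hbi2 hai hbi hI1 hI2
  have hwj62 : wj * (62 / 100) ≤ m :=
    le_trans (mul_le_mul_of_nonneg_left (by linarith) hwj.le) hJ2'
  have hwi62 : wi * (62 / 100) ≤ m :=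
    le_trans (mul_le_mul_of_nonneg_left (by linarith) hwi.le) hI2
  have hzm : m < zj := by
    have e1 : bj * (1 - aj) ≤ l * m := by
      calc bj * (1 - aj) ≤ (l * wj) * (1 - aj) := mul_le_mul_of_nonneg_right hbj (by linarith)
        _ = l * (wj * (1 - aj)) := by ring
        _ ≤ l * m := mul_le_mul_of_nonneg_left hJ2' (by linarith)
    have e1' : bj * (1 - aj) = bj - aj * bj := by ring
    have e2 : Q * m < k * zj + l * m := by linarith
    have e3 : k * m ≤ (Q - l) * m := mul_le_mul_of_nonneg_right (by linarith) hm0.le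
    have e3' : (Q - l) * m = Q * m - l * m := by ring
    have e4 : k * m < k * zj := by linarith
    exact lt_of_mul_lt_mul_left e4 (by linarith)
  have hqq0 : 0 < qq := by
    have f1 : 0 < Q * (Q + 2) := by positivity
    linarith
  have hrpos : 0 < r := by linarith
  have hqr : qq * r < K := by
    have e1 : (qq * r) * zj ≤ (qq * r) * (K * Z11) :=
      mul_le_mul_of_nonneg_left hz (by positivity)
    have e2 : (qq * r) * (K * Z11) ≤ K * m := by
      have f1 : K * (qq * (r * Z11)) ≤ K * m := mul_le_mul_of_nonneg_left hr (by linarith)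
      have f2 : (qq * r) * (K * Z11) = K * (qq * (r * Z11)) := by ring
      linarith
    have e3 : K * m < K * zj := mul_lt_mul_of_pos_left hzm (by linarith)
    have e4 : (qq * r) * zj < K * zj := by linarith
    exact lt_of_mul_lt_mul_right e4 hzj.le
  have hrlow : 1 - (l + L) * m / (62 / 100) ≤ r := by
    have e1 : bj ≤ l * m / (62 / 100) := by
      rw [le_div_iff₀ (by norm_num)]
      have f1 : l * (wj * (62 / 100)) ≤ l * m := mul_le_mul_of_nonneg_left hwj62 (by linarith)
      linarith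
    have e2 : bi ≤ L * m / (62 / 100) := by
      rw [le_div_iff₀ (by norm_num)]
      have f1 : L * (wi * (62 / 100)) ≤ L * m := mul_le_mul_of_nonneg_left hwi62 (by linarith)
      linarith
    have e3 : (l + L) * m / (62 / 100) = l * m / (62 / 100) + L * m / (62 / 100) := by ring
    linarith
  have e5 : qq - (l + L) / (62 / 100) ≤ qq * r := by
    have f1 : qq * (1 - (l + L) * m / (62 / 100)) ≤ qq * r :=
      mul_le_mul_of_nonneg_left hrlow hqq0.le
    have f2 : qq * (1 - (l + L) * m / (62 / 100)) = qq - (l + L) * (qq * m) / (62 / 100) := by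
      ring
    have f3 : (l + L) * (qq * m) / (62 / 100) ≤ (l + L) / (62 / 100) := by
      apply div_le_div_of_nonneg_right _ (by norm_num)
      have f3 : (l + L) * (qq * m) ≤ (l + L) * 1 := mul_le_mul_of_nonneg_left hm (by linarith)
      linarith
    linarith
  have e6 : qq < K + (l + L) / (62 / 100) := by linarith
  have e7 : (l + L) / (62 / 100) = (l + L) * (100 / 62) := by ring
  rw [e7] at e6
  have g1 : 0 ≤ (Q - 11) * (Q - 11) := mul_self_nonneg _
  nlinarith

end H825CD
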