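import Pool.Agent.H825R2.CD.Defs

namespace H825CD
open Finset

theorem RE_er_inj {ι : Type} [Fintype ι] [DecidableEq ι] {Q : ℕ} {j : ι}
    {t t' : ι → Fin (Q + 1)} (h : er j t = er j t') (hj : t j = t' j) : t = t' := by
  funext s
  by_cases hs : s = j
  · rw [hs]; exact hj
  · have h1 := congrFun h s
    simpa [er, hs] using h1

theorem RE_er_other {ι : Type} [Fintype ι] [DecidableEq ι] {Q : ℕ} {i j : ι} (hij : i ≠ j)
    (t : ι → Fin (Q + 1)) : er j t i = t i := by
  simp [er, hij]

theorem RE_er_comm {ι : Type} [Fintype ι] [DecidableEq ι] {Q : ℕ} {i j : ι} (hij : i ≠ j)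
    (t : ι → Fin (Q + 1)) : er i (er j t) = er j (er i t) := by
  unfold er
  exact Function.update_comm hij.symm _ _ _

/-- a letter of a word of `A` which is not common is not used by `B` -/
theorem RE_not_used {ι : Type} [Fintype ι] [DecidableEq ι] {Q : ℕ}
    {A B : Finset (ι → Fin (Q + 1))} {j : ι} {x : Fin (Q + 1)} (hcom : com A B j = {x})
    {a : ι → Fin (Q + 1)} (ha : a ∈ A) (hax : a j ≠ x) : a j ∈ pur A B j := by
  have h1 : a j ∈ used A j := mem_image_of_mem _ ha
  rw [pur, mem_sdiff]
  refine ⟨h1, fun h2 => hax ?_⟩
  have h3 : a j ∈ com A B j := mem_inter.2 ⟨h1, h2⟩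
  rw [hcom] at h3
  exact mem_singleton.1 h3

theorem t_rel (h : S_dist) : S_rel := by
  intro ι _ _ Q δ A B hd j i hij x y hcom hy
  refine ⟨?_, ?_, ?_⟩
  · -- first inequality
    have hsplit : (A.filter (fun a => a j ≠ x)).image (er j) ⊆
        (A.filter (fun a => a j ≠ x ∧ a i = y)).image (er j) ∪
        (A.filter (fun a => a j ≠ x ∧ a i ≠ y)).image (er j) := by
      intro t ht
      obtain ⟨a, ha, rfl⟩ := mem_image.1 ht
      obtain ⟨ha1, ha2⟩ := mem_filter.1 ha
      by_cases hay : a i = y
      · exact mem_union_left _ (mem_image_of_mem _ (mem_filter.2 ⟨ha1, ha2, hay⟩))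
      · exact mem_union_right _ (mem_image_of_mem _ (mem_filter.2 ⟨ha1, ha2, hay⟩))
    have h1 : ((A.filter (fun a => a j ≠ x ∧ a i = y)).image (er j)).card = z10 A j i x y := by
      unfold z10
      have h2 : (A.filter (fun a => a j ≠ x ∧ a i = y)).image (fun a => er i (er j a)) =
          ((A.filter (fun a => a j ≠ x ∧ a i = y)).image (er j)).image (er i) := by
        rw [image_image]
        rfl
      rw [h2]
      symm
      apply card_image_of_injOn
      intro t ht t' ht' htt
      obtain ⟨a, ha, rfl⟩ := mem_image.1 (mem_coe.1 ht)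
      obtain ⟨a', ha', rfl⟩ := mem_image.1 (mem_coe.1 ht')
      refine RE_er_inj htt ?_
      rw [RE_er_other hij, RE_er_other hij, (mem_filter.1 ha).2.2, (mem_filter.1 ha').2.2]
    have h2 : ((A.filter (fun a => a j ≠ x ∧ a i ≠ y)).image (er j)).card ≤
        max 1 (pur A B i).card * z11 A j i x y := by
      unfold z11
      have h3 : (A.filter (fun a => a j ≠ x ∧ a i ≠ y)).image (fun a => er i (er j a)) =
          ((A.filter (fun a => a j ≠ x ∧ a i ≠ y)).image (er j)).image (er i) := by
        rw [image_image]
        rfl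
      rw [h3]
      refine card_le_mul_card_image _ _ fun u _ => ?_
      set T := ((A.filter (fun a => a j ≠ x ∧ a i ≠ y)).image (er j)).filter
        (fun t => er i t = u) with hT
      rcases le_or_gt T.card 1 with h4 | h4
      · exact h4.trans (le_max_left _ _)
      · refine le_trans ?_ (le_max_right _ _)
        refine card_le_card_of_injOn (fun t => t i) ?_ ?_
        · intro t ht
          obtain ⟨t', ht', htt'⟩ := exists_mem_ne h4 t
          have ht0 := mem_filter.1 (mem_coe.1 ht)
          have ht0' := mem_filter.1 ht'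
          obtain ⟨a, ha, hat⟩ := mem_image.1 ht0.1
          obtain ⟨a', ha', hat'⟩ := mem_image.1 ht0'.1
          obtain ⟨haA, hax, -⟩ := mem_filter.1 ha
          obtain ⟨haA', hax', -⟩ := mem_filter.1 ha'
          have hti : t i = a i := by rw [← hat, RE_er_other hij]
          have hti' : t' i = a' i := by rw [← hat', RE_er_other hij]
          have hne : a i ≠ a' i := by
            intro h5
            exact htt' (RE_er_inj (ht0'.2.trans ht0.2.symm) (by rw [hti, hti', h5]))
          show t i ∈ (pur A B i : Set (Fin (Q + 1)))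
          rw [hti, mem_coe, pur, mem_sdiff]
          refine ⟨mem_image_of_mem _ haA, fun h5 => ?_⟩
          obtain ⟨b, hb, hbi⟩ := mem_image.1 h5
          have hbi' : b i = a i := hbi
          have hbj : b j ∈ used B j := mem_image_of_mem _ hb
          have h6 : a j ≠ b j := by
            intro h7
            exact (mem_sdiff.1 (RE_not_used hcom haA hax)).2 (h7 ▸ hbj)
          have h6' : a' j ≠ b j := by
            intro h7
            exact (mem_sdiff.1 (RE_not_used hcom haA' hax')).2 (h7 ▸ hbj)
          have e1 := (h ι Q j a b).1 h6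
          have e1' := (h ι Q j a' b).1 h6'
          have e2 := (h ι Q i (er j a) (er j b)).2 (by
            rw [RE_er_other hij, RE_er_other hij, hbi'])
          have e2' := (h ι Q i (er j a') (er j b)).1 (by
            rw [RE_er_other hij, RE_er_other hij, hbi']
            exact hne.symm)
          have e3 : er i (er j a) = er i (er j a') := by
            rw [hat, hat', ht0.2, ht0'.2]
          have e4 := hd a haA b hb
          have e5 := hd a' haA' b hb
          rw [e3] at e2
          omega
        · intro t ht t' ht' htt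
          have ht0 := mem_filter.1 (mem_coe.1 ht)
          have ht0' := mem_filter.1 (mem_coe.1 ht')
          exact RE_er_inj (ht0.2.trans ht0'.2.symm) htt
    calc nz A j x ≤ _ := card_le_card hsplit
      _ ≤ _ := card_union_le _ _
      _ ≤ _ := by rw [h1]; exact Nat.add_le_add_left h2 _
  · -- second inequality
    have hsplit : (A.filter (fun a => a i ≠ y)).image (er i) ⊆
        (A.filter (fun a => a j = x ∧ a i ≠ y)).image (er i) ∪
        (A.filter (fun a => a j ≠ x ∧ a i ≠ y)).image (er i) := by
      intro t ht
      obtain ⟨a, ha, rfl⟩ := mem_image.1 ht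
      obtain ⟨ha1, ha2⟩ := mem_filter.1 ha
      by_cases hax : a j = x
      · exact mem_union_left _ (mem_image_of_mem _ (mem_filter.2 ⟨ha1, hax, ha2⟩))
      · exact mem_union_right _ (mem_image_of_mem _ (mem_filter.2 ⟨ha1, hax, ha2⟩))
    have h1 : ((A.filter (fun a => a j = x ∧ a i ≠ y)).image (er i)).card = z01 A j i x y := by
      unfold z01
      have h2 : (A.filter (fun a => a j = x ∧ a i ≠ y)).image (fun a => er i (er j a)) =
          ((A.filter (fun a => a j = x ∧ a i ≠ y)).image (er i)).image (er j) := by
        rw [image_image]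
        exact image_congr fun a _ => RE_er_comm hij a
      rw [h2]
      symm
      apply card_image_of_injOn
      intro t ht t' ht' htt
      obtain ⟨a, ha, rfl⟩ := mem_image.1 (mem_coe.1 ht)
      obtain ⟨a', ha', rfl⟩ := mem_image.1 (mem_coe.1 ht')
      refine RE_er_inj htt ?_
      rw [RE_er_other hij.symm, RE_er_other hij.symm, (mem_filter.1 ha).2.1,
        (mem_filter.1 ha').2.1]
    have h2 : ((A.filter (fun a => a j ≠ x ∧ a i ≠ y)).image (er i)).card ≤
        (pur A B j).card * z11 A j i x y := by
      unfold z11
      have h3 : (A.filter (fun a => a j ≠ x ∧ a i ≠ y)).image (fun a => er i (er j a)) =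
          ((A.filter (fun a => a j ≠ x ∧ a i ≠ y)).image (er i)).image (er j) := by
        rw [image_image]
        exact image_congr fun a _ => RE_er_comm hij a
      rw [h3]
      refine card_le_mul_card_image _ _ fun u _ => ?_
      refine card_le_card_of_injOn (fun t => t j) ?_ ?_
      · intro t ht
        have ht0 := mem_filter.1 (mem_coe.1 ht)
        obtain ⟨a, ha, hat⟩ := mem_image.1 ht0.1
        obtain ⟨haA, hax, -⟩ := mem_filter.1 ha
        have htj : t j = a j := by rw [← hat, RE_er_other hij.symm]
        show t j ∈ (pur A B j : Set (Fin (Q + 1)))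
        rw [htj, mem_coe]
        exact RE_not_used hcom haA hax
      · intro t ht t' ht' htt
        have ht0 := mem_filter.1 (mem_coe.1 ht)
        have ht0' := mem_filter.1 (mem_coe.1 ht')
        exact RE_er_inj (ht0.2.trans ht0'.2.symm) htt
    calc nz A i y ≤ _ := card_le_card hsplit
      _ ≤ _ := card_union_le _ _
      _ ≤ _ := by rw [h1]; exact Nat.add_le_add_left h2 _
  · -- third inequality
    have hsub : A ⊆ (A.filter (fun a => a j = x ∧ a i = y)) ∪ (A.filter (fun a => a j ≠ x)) ∪
        (A.filter (fun a => a i ≠ y)) := by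
      intro a ha
      by_cases h1 : a j = x
      · by_cases h2 : a i = y
        · exact mem_union_left _ (mem_union_left _ (mem_filter.2 ⟨ha, h1, h2⟩))
        · exact mem_union_right _ (mem_filter.2 ⟨ha, h2⟩)
      · exact mem_union_left _ (mem_union_right _ (mem_filter.2 ⟨ha, h1⟩))
    calc A.card ≤ _ := card_le_card hsub
      _ ≤ _ := card_union_le _ _
      _ ≤ _ := Nat.add_le_add_right (card_union_le _ _) _

end H825CD
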