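import Pool.Agent.H825R2.CD.Defs

namespace H825CD
open Finset

/-- erasing a coordinate is injective on words with the same letter there -/
theorem S1_inj {ι : Type} [Fintype ι] [DecidableEq ι] {Q : ℕ} (A : Finset (ι → Fin (Q + 1)))
    (j : ι) (x : Fin (Q + 1)) :
    ((A.filter (fun a => a j = x)).image (er j)).card = (A.filter (fun a => a j = x)).card := by
  apply Finset.card_image_of_injOn
  intro a ha b hb hab
  simp only [Finset.coe_filter, Set.mem_setOf_eq] at ha hb
  funext i
  by_cases hi : i = j
  · subst hi
    rw [ha.2, hb.2]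
  · have h := congrFun hab i
    simpa [er, Function.update_of_ne hi] using h

theorem S1_card {ι : Type} [Fintype ι] [DecidableEq ι] {Q : ℕ} (A : Finset (ι → Fin (Q + 1)))
    (j : ι) (x : Fin (Q + 1)) :
    A.card - na A j x = (A.filter (fun a => a j = x)).card := by
  have h := Finset.card_filter_add_card_filter_not (s := A) (fun a => a j = x)
  unfold na
  have h2 : (A.filter (fun a => a j ≠ x)).card = (A.filter (fun a => ¬ a j = x)).card := rfl
  omega

theorem S1_pcnt {ι : Type} [Fintype ι] [DecidableEq ι] {Q : ℕ} (A : Finset (ι → Fin (Q + 1)))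
    (j : ι) (x : Fin (Q + 1)) : pcnt A j {x} = A.card - na A j x := by
  rw [S1_card]
  unfold pcnt
  simp only [Finset.mem_singleton]
  exact S1_inj A j x

theorem S1_pur {ι : Type} [Fintype ι] [DecidableEq ι] {Q : ℕ} (A B : Finset (ι → Fin (Q + 1)))
    (j : ι) (x : Fin (Q + 1)) (hc : com A B j = {x}) : pcnt A j (pur A B j) = nz A j x := by
  unfold pcnt nz
  have h : A.filter (fun a => a j ∈ pur A B j) = A.filter (fun a => a j ≠ x) := by
    apply Finset.filter_congr
    intro a ha
    have h1 : a j ∈ used A j := Finset.mem_image_of_mem _ ha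
    constructor
    · intro h2 h3
      have h4 : x ∈ com A B j := by rw [hc]; exact Finset.mem_singleton_self x
      have h5 : x ∈ used B j := (Finset.mem_inter.mp h4).2
      rw [h3] at h2
      exact (Finset.mem_sdiff.mp h2).2 h5
    · intro h2
      refine Finset.mem_sdiff.mpr ⟨h1, fun h3 => h2 ?_⟩
      have h4 : a j ∈ com A B j := Finset.mem_inter.mpr ⟨h1, h3⟩
      rw [hc] at h4
      exact Finset.mem_singleton.mp h4
  rw [h]

theorem t_split1 (h0 : S_dist) (h1 : S_split) (h2 : S_struct) : S_split1 := by
  intro ι _ _ Q S δ M A B hctx j hj x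
  refine ⟨?_, ?_⟩
  · have h := h1 ι Q S δ M A B hctx j hj (Finset.univ.erase x) {x} (by simp)
    rw [S1_pcnt] at h
    have h3 : pcnt A j (Finset.univ.erase x) = nz A j x := by
      unfold pcnt nz
      simp
    rwa [h3] at h
  · intro hc
    have hc' : com B A j = {x} := by
      rw [← hc]
      unfold com
      rw [Finset.inter_comm]
    have hd : Disjoint (pur A B j) (used B j) := Finset.sdiff_disjoint
    have h := h1 ι Q S δ M A B hctx j hj (pur A B j) (used B j) hd
    rw [S1_pur A B j x hc] at h
    have hu : used B j = {x} ∪ pur B A j := by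
      rw [← hc']
      unfold com pur
      ext y
      simp only [Finset.mem_union, Finset.mem_inter, Finset.mem_sdiff]
      tauto
    have hst := (h2 ι Q δ B A (fun b hb a ha => by
      rw [hammingDist_comm]; exact hctx.dist a ha b hb) j).1 {x} (by rw [hc'])
    have hcn : cnt B j {x} = B.card - na B j x := by
      rw [S1_card]
      unfold cnt
      simp only [Finset.mem_singleton]
    rw [hu, hst, hcn, S1_pur B A j x hc'] at h
    exact h

end H825CD
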