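import Pool.Agent.H825R2.CD.Defs

namespace H825CD
open Finset

theorem SP_sup {ι : Type} [Fintype ι] [DecidableEq ι] {Q : ℕ} (S : Finset ι)
    (A : Finset (ι → Fin (Q + 1))) (hA : Sup S A) (j : ι) (P : Finset (Fin (Q + 1))) :
    Sup (S.erase j) ((A.filter (fun a => a j ∈ P)).image (er j)) := by
  intro a' ha' i hi
  obtain ⟨a, ha, rfl⟩ := Finset.mem_image.1 ha'
  by_cases hij : i = j
  · subst hij
    simp [er]
  · have hiS : i ∉ S := fun h => hi (Finset.mem_erase.2 ⟨hij, h⟩)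
    unfold er
    rw [Function.update_of_ne hij]
    exact hA a (Finset.mem_filter.1 ha).1 i hiS

theorem t_split (h : S_dist) : S_split := by
  intro ι _ _ Q S δ M A B hC j hj P R hPR
  unfold pcnt
  refine hC.ih1 j hj _ _ (SP_sup S A hC.supA j P) (SP_sup S B hC.supB j R) ?_
  intro a' ha' b' hb'
  obtain ⟨a, ha, rfl⟩ := Finset.mem_image.1 ha'
  obtain ⟨b, hb, rfl⟩ := Finset.mem_image.1 hb'
  rw [Finset.mem_filter] at ha hb
  have hab : a j ≠ b j := by
    intro h'
    exact Finset.disjoint_left.1 hPR ha.2 (h' ▸ hb.2)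
  rw [(h ι Q j a b).1 hab]
  exact hC.dist a ha.1 b hb.1

end H825CD
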