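import Pool.Agent.H825R2.CD.Defs

namespace H825CD
open Finset

theorem SS_sup {ι : Type} [Fintype ι] [DecidableEq ι] {Q : ℕ} {S : Finset ι}
    {A A1 : Finset (ι → Fin (Q + 1))} (hA : Sup S A) (hA1 : A1 ⊆ A) (j i : ι) :
    Sup ((S.erase j).erase i) (A1.image (fun a => er i (er j a))) := by
  intro a' ha' k hk
  obtain ⟨a, ha, rfl⟩ := Finset.mem_image.mp ha'
  by_cases h1 : k = i
  · subst h1; simp [er]
  · by_cases h2 : k = j
    · subst h2; simp [er, h1]
    · have h3 : k ∉ S := fun h => hk (Finset.mem_erase.mpr ⟨h1, Finset.mem_erase.mpr ⟨h2, h⟩⟩)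
      simp [er, h1, h2, hA a (hA1 ha) k h3]

theorem SS_inj {ι : Type} [Fintype ι] [DecidableEq ι] {Q : ℕ}
    {A : Finset (ι → Fin (Q + 1))} (j i : ι) (x y : Fin (Q + 1)) :
    ((A.filter (fun a => a j = x ∧ a i = y)).image (fun a => er i (er j a))).card
      = p00 A j i x y := by
  unfold p00
  apply Finset.card_image_of_injOn
  intro a ha b hb hab
  rw [Finset.mem_coe, Finset.mem_filter] at ha hb
  funext k
  by_cases h1 : k = i
  · subst h1; rw [ha.2.2, hb.2.2]
  · by_cases h2 : k = j
    · subst h2; rw [ha.2.1, hb.2.1]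
    · have := congrFun hab k
      simpa [er, h1, h2] using this

theorem t_SS (h : S_dist) : S_SS := by
  intro ι _ _ Q S δ M A B hC j hj i hi hij x y
  have h1 := hC.ih2 j hj i hi hij
    ((A.filter (fun a => a j = x ∧ a i = y)).image (fun a => er i (er j a)))
    ((B.filter (fun a => a j ≠ x ∧ a i ≠ y)).image (fun a => er i (er j a)))
    (SS_sup hC.supA (Finset.filter_subset _ _) j i)
    (SS_sup hC.supB (Finset.filter_subset _ _) j i) ?_
  · rw [SS_inj] at h1
    exact h1
  · intro a' ha' b' hb'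
    obtain ⟨a, ha, rfl⟩ := Finset.mem_image.mp ha'
    obtain ⟨b, hb, rfl⟩ := Finset.mem_image.mp hb'
    rw [Finset.mem_filter] at ha hb
    have hd := hC.dist a ha.1 b hb.1
    have hj' : a j ≠ b j := by rw [ha.2.1]; exact fun h => hb.2.1 h.symm
    have e1 : er j a i = a i := by simp [er, hij]
    have e2 : er j b i = b i := by simp [er, hij]
    have hi' : er j a i ≠ er j b i := by
      rw [e1, e2, ha.2.2]; exact fun h => hb.2.2 h.symm
    have s1 := (h ι Q j a b).1 hj'
    have s2 := (h ι Q i (er j a) (er j b)).1 hi'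
    show hammingDist (er i (er j a)) (er i (er j b)) + 2 = δ
    omega

end H825CD
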