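import Pool.Agent.H825R2.CD.Defs

namespace H825CD
open Finset

theorem ST_key (h : S_dist) {ι : Type} [Fintype ι] [DecidableEq ι] {Q δ : ℕ}
    {A B : Finset (ι → Fin (Q + 1))} (hd : ∀ a ∈ A, ∀ b ∈ B, hammingDist a b = δ) {j : ι}
    {a a' : ι → Fin (Q + 1)} (ha : a ∈ A) (ha' : a' ∈ A) (he : er j a = er j a')
    (hu : a j ∈ used B j) : a j = a' j := by
  by_contra hne
  obtain ⟨b, hb, hbj⟩ := Finset.mem_image.1 hu
  have h1 := (h ι Q j a b).2 hbj.symm
  have h2 := (h ι Q j a' b).1 (fun h3 => hne (by rw [h3, ← hbj]))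
  rw [hd a ha b hb] at h1
  rw [hd a' ha' b hb, ← he, h1] at h2
  omega

theorem ST_ext {ι : Type} [Fintype ι] [DecidableEq ι] {Q : ℕ} {j : ι}
    {a a' : ι → Fin (Q + 1)} (he : er j a = er j a') (hj : a j = a' j) : a = a' := by
  funext i
  by_cases hi : i = j
  · rw [hi, hj]
  · have := congrFun he i
    unfold er at this
    rwa [Function.update_of_ne hi, Function.update_of_ne hi] at this

theorem t_struct (h : S_dist) : S_struct := by
  intro ι _ _ Q δ A B hd j
  refine ⟨?_, ?_, ?_, ?_, ?_⟩
  · intro P hP
    have h1 : A.filter (fun a => a j ∈ P ∪ pur A B j) =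
        A.filter (fun a => a j ∈ P) ∪ A.filter (fun a => a j ∈ pur A B j) := by
      ext a
      simp only [Finset.mem_filter, Finset.mem_union]
      tauto
    unfold pcnt cnt
    rw [h1, Finset.image_union, Finset.card_union_of_disjoint, Finset.card_image_of_injOn]
    · intro a ha a' ha' he
      have ha1 := Finset.mem_filter.1 (Finset.mem_coe.1 ha)
      have ha2 := Finset.mem_filter.1 (Finset.mem_coe.1 ha')
      exact ST_ext he (ST_key h hd ha1.1 ha2.1 he (Finset.mem_inter.1 (hP ha1.2)).2)
    · rw [Finset.disjoint_left]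
      intro e he1 he2
      obtain ⟨a, ha, rfl⟩ := Finset.mem_image.1 he1
      obtain ⟨a', ha', he⟩ := Finset.mem_image.1 he2
      have ha1 := Finset.mem_filter.1 ha
      have ha2 := Finset.mem_filter.1 ha'
      have hu := (Finset.mem_inter.1 (hP ha1.2)).2
      have h3 := ST_key h hd ha1.1 ha2.1 he.symm hu
      have h4 := (Finset.mem_sdiff.1 ha2.2).2
      rw [← h3] at h4
      exact h4 hu
  · unfold cnt pcnt
    rw [← Finset.card_product]
    refine Finset.card_le_card_of_injOn (fun a => (a j, er j a)) ?_ ?_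
    · intro a ha
      have ha1 := Finset.mem_filter.1 (Finset.mem_coe.1 ha)
      exact Finset.mem_coe.2 (Finset.mem_product.2 ⟨ha1.2, Finset.mem_image_of_mem _
        (Finset.mem_filter.2 ha1)⟩)
    · intro a _ a' _ he
      have he' := Prod.mk.inj he
      exact ST_ext he'.2 he'.1
  · have h1 : A.filter (fun a => a j ∈ pur A B j) = A.filter (fun a => ¬ a j ∈ com A B j) := by
      refine Finset.filter_congr fun a ha => ?_
      have hu : a j ∈ used A j := Finset.mem_image_of_mem _ ha
      unfold pur com
      rw [Finset.mem_sdiff, Finset.mem_inter]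
      tauto
    unfold cnt
    rw [h1]
    exact Finset.card_filter_add_card_filter_not _
  · intro P
    unfold cnt
    rw [Finset.card_eq_sum_card_fiberwise (f := fun a : ι → Fin (Q + 1) => a j) (t := P)]
    · refine Finset.sum_congr rfl fun x hx => ?_
      congr 1
      ext a
      simp only [Finset.mem_filter, Finset.mem_singleton]
      constructor
      · rintro ⟨⟨h1, -⟩, h2⟩
        exact ⟨h1, h2⟩
      · rintro ⟨h1, h2⟩
        exact ⟨⟨h1, h2 ▸ hx⟩, h2⟩
    · intro a ha
      exact (Finset.mem_filter.1 (Finset.mem_coe.1 ha)).2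
  · have h1 : Disjoint (com A B j) (pur A B j) := by
      rw [Finset.disjoint_left]
      intro x hx hx'
      exact (Finset.mem_sdiff.1 hx').2 (Finset.mem_inter.1 hx).2
    have h2 : Disjoint (com A B j ∪ pur A B j) (pur B A j) := by
      rw [Finset.disjoint_left]
      intro x hx hx'
      have h3 := (Finset.mem_sdiff.1 hx').2
      rcases Finset.mem_union.1 hx with h4 | h4
      · exact h3 (Finset.mem_inter.1 h4).1
      · exact h3 (Finset.mem_sdiff.1 h4).1
    rw [← Finset.card_union_of_disjoint h1, ← Finset.card_union_of_disjoint h2]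
    refine (Finset.card_le_univ _).trans ?_
    rw [Fintype.card_fin]

end H825CD
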