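import Pool.Agent.H825R2.CD.Defs

namespace H825CD
open Finset

theorem t_symm : S_symm := by
  intro ι _ _ Q S δ M A B h
  refine ⟨h.supB, h.supA, fun a ha b hb => ?_, fun A' B' hA hB hd => ?_,
    fun j hj A' B' hA hB hd => ?_, fun j hj i hi hij A' B' hA hB hd => ?_, ?_, ?_⟩
  · rw [hammingDist_comm]; exact h.dist b hb a ha
  · have h1 := h.max B' A' hB hA fun b hb a ha => by rw [hammingDist_comm]; exact hd a ha b hb
    rw [Nat.mul_comm A'.card, Nat.mul_comm B.card]
    exact h1
  · have h1 := h.ih1 j hj B' A' hB hA fun b hb a ha => by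
      rw [hammingDist_comm]; exact hd a ha b hb
    rw [Nat.mul_comm A'.card]
    exact h1
  · have h1 := h.ih2 j hj i hi hij B' A' hB hA fun b hb a ha => by
      rw [hammingDist_comm]; exact hd a ha b hb
    rw [Nat.mul_comm A'.card]
    exact h1
  · rw [Nat.mul_comm B.card]; exact h.big
  · rw [Nat.mul_comm B.card]; exact h.crit

end H825CD
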