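import Pool.Agent.H825R2.CD.Defs

namespace H825CD
open Finset

section VV

variable {ι : Type} [Fintype ι] [DecidableEq ι] {Q : ℕ}

theorem VV_dist2 (h : S_dist) (j i : ι) (hij : i ≠ j) (a b : ι → Fin (Q + 1)) :
    hammingDist (er i (er j a)) (er i (er j b)) + (if a j ≠ b j then 1 else 0)
      + (if a i ≠ b i then 1 else 0) = hammingDist a b := by
  have h1 := h ι Q j a b
  have h2 := h ι Q i (er j a) (er j b)
  have ea : er j a i = a i := by simp [er, Function.update_of_ne hij]
  have eb : er j b i = b i := by simp [er, Function.update_of_ne hij]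
  rw [ea, eb] at h2
  by_cases c1 : a j = b j <;> by_cases c2 : a i = b i
  · have e1 := h1.2 c1
    have e2 := h2.2 c2
    simp [c1, c2]; omega
  · have e1 := h1.2 c1
    have e2 := h2.1 c2
    simp [c1, c2]; omega
  · have e1 := h1.1 c1
    have e2 := h2.2 c2
    simp [c1, c2]; omega
  · have e1 := h1.1 c1
    have e2 := h2.1 c2
    simp [c1, c2]; omega

/-- words with prescribed letters at `j`, `i` and rest in `N` -/
def VV_part (j i : ι) (U V : Finset (Fin (Q + 1))) (N : Finset (ι → Fin (Q + 1))) :
    Finset (ι → Fin (Q + 1)) :=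
  ((U ×ˢ V) ×ˢ N).image (fun p => Function.update (Function.update p.2 j p.1.1) i p.1.2)

omit [Fintype ι] in
theorem VV_erW (j i : ι) (hij : i ≠ j) (c : ι → Fin (Q + 1)) (hj : c j = 0) (hi : c i = 0)
    (u v : Fin (Q + 1)) :
    er i (er j (Function.update (Function.update c j u) i v)) = c := by
  funext k
  unfold er
  by_cases hk : k = i
  · subst hk; simp [hi]
  · rw [Function.update_of_ne hk]
    by_cases hk' : k = j
    · subst hk'; simp [hj]
    · rw [Function.update_of_ne hk', Function.update_of_ne hk, Function.update_of_ne hk']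

theorem VV_mem (j i : ι) (hij : i ≠ j) (U V : Finset (Fin (Q + 1)))
    (N : Finset (ι → Fin (Q + 1))) (hN : ∀ c ∈ N, c j = 0 ∧ c i = 0) (w : ι → Fin (Q + 1))
    (hw : w ∈ VV_part j i U V N) : w j ∈ U ∧ w i ∈ V ∧ er i (er j w) ∈ N := by
  unfold VV_part at hw
  rw [mem_image] at hw
  obtain ⟨⟨⟨u, v⟩, c⟩, hp, rfl⟩ := hw
  simp only [mem_product] at hp
  obtain ⟨⟨hu, hv⟩, hc⟩ := hp
  refine ⟨?_, ?_, ?_⟩
  · simpa [Function.update_of_ne hij.symm] using hu
  · simpa using hv
  · simp only []
    rw [VV_erW j i hij c (hN c hc).1 (hN c hc).2]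
    exact hc

theorem VV_card (j i : ι) (hij : i ≠ j) (U V : Finset (Fin (Q + 1)))
    (N : Finset (ι → Fin (Q + 1))) (hN : ∀ c ∈ N, c j = 0 ∧ c i = 0) :
    (VV_part j i U V N).card = U.card * V.card * N.card := by
  unfold VV_part
  rw [card_image_of_injOn, card_product, card_product]
  rintro ⟨⟨u, v⟩, c⟩ hp ⟨⟨u', v'⟩, c'⟩ hp' hE
  simp only [coe_product, Set.mem_prod, mem_coe] at hp hp'
  simp only at hE
  have e1 : u = u' := by
    have := congrFun hE j
    simpa [Function.update_of_ne hij.symm] using this
  have e2 : v = v' := by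
    have := congrFun hE i
    simpa using this
  have e3 : c = c' := by
    have := congrArg (fun w => er i (er j w)) hE
    rw [VV_erW j i hij c (hN c hp.2).1 (hN c hp.2).2,
      VV_erW j i hij c' (hN c' hp'.2).1 (hN c' hp'.2).2] at this
    exact this
  rw [e1, e2, e3]

theorem VV_zero (j i : ι) (hij : i ≠ j) (B : Finset (ι → Fin (Q + 1))) :
    ∀ c ∈ B.image (fun a => er i (er j a)), c j = 0 ∧ c i = 0 := by
  intro c hc
  rw [mem_image] at hc
  obtain ⟨b, _, rfl⟩ := hc
  refine ⟨?_, ?_⟩
  · simp [er, Function.update_of_ne hij.symm]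
  · simp [er]

theorem VV_sup (j i : ι) (S : Finset ι) (hj : j ∈ S) (hi : i ∈ S)
    (B : Finset (ι → Fin (Q + 1))) (hB : Sup S B) (w : ι → Fin (Q + 1))
    (hw : er i (er j w) ∈ B.image (fun a => er i (er j a))) : ∀ k, k ∉ S → w k = 0 := by
  intro k hk
  rw [mem_image] at hw
  obtain ⟨b, hb, hE⟩ := hw
  have hki : k ≠ i := fun e => hk (e ▸ hi)
  have hkj : k ≠ j := fun e => hk (e ▸ hj)
  have := congrFun hE k
  unfold er at this
  rw [Function.update_of_ne hki, Function.update_of_ne hkj, Function.update_of_ne hki,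
    Function.update_of_ne hkj] at this
  rw [← this]
  exact hB b hb k hk

end VV

theorem t_V (h : S_dist) : S_V := by
  intro ι _ _ Q S δ M A B hC j hj i hi hij x y hcom htw
  set N10 := (B.filter (fun a => a j ≠ x ∧ a i = y)).image (fun a => er i (er j a)) with hN10
  set N01 := (B.filter (fun a => a j = x ∧ a i ≠ y)).image (fun a => er i (er j a)) with hN01
  set N11 := (B.filter (fun a => a j ≠ x ∧ a i ≠ y)).image (fun a => er i (er j a)) with hN11
  have z10e : z10 B j i x y = N10.card := rfl
  have z01e : z01 B j i x y = N01.card := rfl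
  have z11e : z11 B j i x y = N11.card := rfl
  -- letters of `A` and `B` different from `x` at `j` are different
  have hne : ∀ a ∈ A, ∀ b ∈ B, a j ≠ x → a j ≠ b j := by
    intro a ha b hb hax hab
    apply hax
    have : a j ∈ com A B j := by
      unfold com used
      rw [mem_inter, mem_image, mem_image]
      exact ⟨⟨a, ha, rfl⟩, ⟨b, hb, hab.symm⟩⟩
    rw [hcom, mem_singleton] at this
    exact this
  have hdisj : Disjoint N10 N01 := by
    rw [disjoint_left]
    intro c hc1 hc2
    rw [hN10, mem_image] at hc1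
    rw [hN01, mem_image] at hc2
    obtain ⟨b, hb, hbe⟩ := hc1
    obtain ⟨b', hb', hbe'⟩ := hc2
    rw [mem_filter] at hb hb'
    obtain ⟨hb, hbj, hbi⟩ := hb
    obtain ⟨hb', hbj', hbi'⟩ := hb'
    apply htw
    intro a ha
    have d1 := VV_dist2 h j i hij a b
    have d2 := VV_dist2 h j i hij a b'
    rw [hbe, hC.dist a ha b hb] at d1
    rw [hbe', hC.dist a ha b' hb'] at d2
    by_contra hcon
    by_cases hax : a j = x
    · have hay : a i ≠ y := by
        intro hay
        exact hcon ⟨fun _ => hay, fun _ => hax⟩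
      have e1 : a j ≠ b j := by rw [hax]; exact fun e => hbj e.symm
      have e2 : a i ≠ b i := by rw [hbi]; exact hay
      have e3 : a j = b' j := by rw [hax, hbj']
      rw [if_pos e1, if_pos e2] at d1
      rw [if_neg (not_not.mpr e3)] at d2
      split_ifs at d2 <;> omega
    · have hay : a i = y := by
        by_contra hay
        exact hcon ⟨fun e => absurd e hax, fun e => absurd e hay⟩
      have e1 : a j ≠ b j := hne a ha b hb hax
      have e2 : a i = b i := by rw [hbi, hay]
      have e3 : a j ≠ b' j := hne a ha b' hb' hax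
      have e4 : a i ≠ b' i := by rw [hay]; exact fun e => hbi' e.symm
      rw [if_pos e1, if_neg (not_not.mpr e2)] at d1
      rw [if_pos e3, if_pos e4] at d2
      omega
  set N1 := N10 ∪ N01 with hN1
  have hN1c : N1.card = N10.card + N01.card := by rw [hN1, card_union_of_disjoint hdisj]
  have hsub : ∀ p : (ι → Fin (Q + 1)) → Prop, ∀ [DecidablePred p],
      (B.filter p).image (fun a => er i (er j a)) ⊆ B.image (fun a => er i (er j a)) := by
    intro p _
    exact image_subset_image (filter_subset _ _)
  have hN1sub : N1 ⊆ B.image (fun a => er i (er j a)) := union_subset (hsub _) (hsub _)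
  have hN11sub : N11 ⊆ B.image (fun a => er i (er j a)) := hsub _
  have hz := VV_zero j i hij B
  have hN1z : ∀ c ∈ N1, c j = 0 ∧ c i = 0 := fun c hc => hz c (hN1sub hc)
  have hN11z : ∀ c ∈ N11, c j = 0 ∧ c i = 0 := fun c hc => hz c (hN11sub hc)
  set A' := A.filter (fun a => a j = x ∧ a i = y) with hA'
  set B0 := B.filter (fun a => a j = x ∧ a i = y) with hB0
  set P1 := VV_part j i (univ.erase x) {y} N1 with hP1
  set P2 := VV_part j i {x} (univ.erase y) N1 with hP2
  set P3 := VV_part j i (univ.erase x) (univ.erase y) N11 with hP3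
  have m0 : ∀ w ∈ B0, w ∈ B ∧ w j = x ∧ w i = y := by
    intro w hw; rw [hB0, mem_filter] at hw; exact hw
  have m1 : ∀ w ∈ P1, w j ≠ x ∧ w i = y ∧ er i (er j w) ∈ N1 := by
    intro w hw
    have := VV_mem j i hij _ _ _ hN1z w hw
    simpa using this
  have m2 : ∀ w ∈ P2, w j = x ∧ w i ≠ y ∧ er i (er j w) ∈ N1 := by
    intro w hw
    have := VV_mem j i hij _ _ _ hN1z w hw
    simpa using this
  have m3 : ∀ w ∈ P3, w j ≠ x ∧ w i ≠ y ∧ er i (er j w) ∈ N11 := by
    intro w hw
    have := VV_mem j i hij _ _ _ hN11z w hw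
    simpa using this
  have c1 : P1.card = Q * N1.card := by
    rw [hP1, VV_card j i hij _ _ _ hN1z, card_erase_of_mem (mem_univ x), card_singleton,
      card_univ, Fintype.card_fin]
    simp
  have c2 : P2.card = Q * N1.card := by
    rw [hP2, VV_card j i hij _ _ _ hN1z, card_erase_of_mem (mem_univ y), card_singleton,
      card_univ, Fintype.card_fin]
    simp
  have c3 : P3.card = Q ^ 2 * N11.card := by
    rw [hP3, VV_card j i hij _ _ _ hN11z, card_erase_of_mem (mem_univ x),
      card_erase_of_mem (mem_univ y), card_univ, Fintype.card_fin]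
    simp [sq]
  have d01 : Disjoint B0 P1 := by
    rw [disjoint_left]; intro w hw hw'
    exact (m1 w hw').1 (m0 w hw).2.1
  have d012 : Disjoint (B0 ∪ P1) P2 := by
    rw [disjoint_left]; intro w hw hw'
    rcases mem_union.mp hw with hw | hw
    · exact (m2 w hw').2.1 (m0 w hw).2.2
    · exact (m1 w hw).1 (m2 w hw').1
  have d0123 : Disjoint (B0 ∪ P1 ∪ P2) P3 := by
    rw [disjoint_left]; intro w hw hw'
    rcases mem_union.mp hw with hw | hw
    · rcases mem_union.mp hw with hw | hw
      · exact (m3 w hw').1 (m0 w hw).2.1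
      · exact (m3 w hw').2.1 (m1 w hw).2.1
    · exact (m3 w hw').1 (m2 w hw).1
  have hcard : (B0 ∪ P1 ∪ P2 ∪ P3).card
      = B0.card + Q * N1.card + Q * N1.card + Q ^ 2 * N11.card := by
    rw [card_union_of_disjoint d0123, card_union_of_disjoint d012, card_union_of_disjoint d01,
      c1, c2, c3]
  have key := hC.max A' (B0 ∪ P1 ∪ P2 ∪ P3) ?_ ?_ ?_
  · rw [hcard, hN1c] at key
    have : p00 A j i x y * (p00 B j i x y + 2 * Q * (z10 B j i x y + z01 B j i x y)
      + Q ^ 2 * z11 B j i x y) = A'.card * (B0.card + Q * (N10.card + N01.card)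
        + Q * (N10.card + N01.card) + Q ^ 2 * N11.card) := by
      rw [z10e, z01e, z11e]
      show A'.card * (B0.card + 2 * Q * (N10.card + N01.card) + Q ^ 2 * N11.card) = _
      ring
    rw [this]
    exact key
  · intro a ha
    rw [hA', mem_filter] at ha
    exact hC.supA a ha.1
  · intro w hw
    rcases mem_union.mp hw with hw | hw
    · rcases mem_union.mp hw with hw | hw
      · rcases mem_union.mp hw with hw | hw
        · exact hC.supB w (m0 w hw).1
        · exact VV_sup j i S hj hi B hC.supB w (hN1sub (m1 w hw).2.2)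
      · exact VV_sup j i S hj hi B hC.supB w (hN1sub (m2 w hw).2.2)
    · exact VV_sup j i S hj hi B hC.supB w (hN11sub (m3 w hw).2.2)
  · intro a ha w hw
    rw [hA', mem_filter] at ha
    obtain ⟨ha, haj, hai⟩ := ha
    have dw := VV_dist2 h j i hij a w
    -- distance to a word of `N1`
    have hd1 : ∀ c ∈ N1, hammingDist (er i (er j a)) c + 1 = δ := by
      intro c hc
      rcases mem_union.mp hc with hc | hc
      · rw [hN10, mem_image] at hc
        obtain ⟨b, hb, rfl⟩ := hc
        rw [mem_filter] at hb
        have d := VV_dist2 h j i hij a b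
        rw [if_pos (by rw [haj]; exact fun e => hb.2.1 e.symm),
          if_neg (by rw [hai, hb.2.2]; simp), hC.dist a ha b hb.1] at d
        simpa using d
      · rw [hN01, mem_image] at hc
        obtain ⟨b, hb, rfl⟩ := hc
        rw [mem_filter] at hb
        have d := VV_dist2 h j i hij a b
        rw [if_neg (by rw [haj, hb.2.1]; simp),
          if_pos (by rw [hai]; exact fun e => hb.2.2 e.symm), hC.dist a ha b hb.1] at d
        simpa using d
    have hd2 : ∀ c ∈ N11, hammingDist (er i (er j a)) c + 2 = δ := by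
      intro c hc
      rw [hN11, mem_image] at hc
      obtain ⟨b, hb, rfl⟩ := hc
      rw [mem_filter] at hb
      have d := VV_dist2 h j i hij a b
      rw [if_pos (by rw [haj]; exact fun e => hb.2.1 e.symm),
        if_pos (by rw [hai]; exact fun e => hb.2.2 e.symm), hC.dist a ha b hb.1] at d
      simpa using d
    rcases mem_union.mp hw with hw | hw
    · rcases mem_union.mp hw with hw | hw
      · rcases mem_union.mp hw with hw | hw
        · exact hC.dist a ha w (m0 w hw).1
        · obtain ⟨hw1, hw2, hw3⟩ := m1 w hw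
          rw [if_pos (by rw [haj]; exact fun e => hw1 e.symm),
            if_neg (by rw [hai, hw2]; simp)] at dw
          have := hd1 _ hw3
          omega
      · obtain ⟨hw1, hw2, hw3⟩ := m2 w hw
        rw [if_neg (by rw [haj, hw1]; simp),
          if_pos (by rw [hai]; exact fun e => hw2 e.symm)] at dw
        have := hd1 _ hw3
        omega
    · obtain ⟨hw1, hw2, hw3⟩ := m3 w hw
      rw [if_pos (by rw [haj]; exact fun e => hw1 e.symm),
        if_pos (by rw [hai]; exact fun e => hw2 e.symm)] at dw
      have := hd2 _ hw3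
      omega

end H825CD
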