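import Pool.Agent.H825R2.CD.DI
import Pool.Agent.H825R2.CD.SY
import Pool.Agent.H825R2.CD.SP
import Pool.Agent.H825R2.CD.ST
import Pool.Agent.H825R2.CD.CR
import Pool.Agent.H825R2.CD.FI
import Pool.Agent.H825R2.CD.S1
import Pool.Agent.H825R2.CD.EE
import Pool.Agent.H825R2.CD.VV
import Pool.Agent.H825R2.CD.SS
import Pool.Agent.H825R2.CD.RE
import Pool.Agent.H825R2.CD.PA
import Pool.Agent.H825R2.CD.FF
import Pool.Agent.H825R2.CD.R1
import Pool.Agent.H825R2.CD.R2
import Pool.Agent.H825R2.CD.R3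
import Pool.Agent.H825R2.CD.R4
import Pool.Agent.H825R2.CD.R5
import Pool.Agent.H825R2.CD.R6
import Pool.Agent.H825R2.CD.T1
import Pool.Agent.H825R2.CD.T2
import Pool.Agent.H825R2.CD.T3

namespace H825CD

theorem all_false : S_false :=
  t_false t_symm (t_struct t_dist) t_crit (t_fib t_dist)
    (t_split1 t_dist (t_split t_dist) (t_struct t_dist)) (t_E t_dist) (t_V t_dist) (t_SS t_dist)
    (t_rel t_dist) t_partner t_FF t_gain t_final t_twin
    (t_coord t_symm (t_split t_dist) (t_struct t_dist) (t_dom t_pure) (t_nc t_pure) t_FF)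

theorem all_main : S_main := t_main all_false t_FF

end H825CD
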